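import Pool.Agent.H25.Classify

/-!
Strict abundance in union-closed families which are dense on a set of points determining
their members.
-/

set_option autoImplicit false
set_option linter.unusedSectionVars false

namespace Pool.Agent.H25

open Finset Pool.Agent.H67.Cube

variable {α : Type*} [DecidableEq α]

/-- The case in which the trace is a power set. -/
lemma trace_power (A : Finset (Finset α))
    (huc : ∀ S ∈ A, ∀ T ∈ A, S ∪ T ∈ A)
    (hsep : ∀ x ∈ A.sup id, ∀ y ∈ A.sup id, x ≠ y →
      ∃ S ∈ A, (x ∈ S ∧ y ∉ S) ∨ (y ∈ S ∧ x ∉ S))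
    (X : Finset α) (hXU : X ⊆ A.sup id)
    (hX : ∀ S ∈ A, ∀ T ∈ A, S ∩ X = T ∩ X → S = T)
    (hfull : ∀ Z ⊆ X, ∃ S ∈ A, S ∩ X = Z)
    {y : α} (hy : y ∈ A.sup id) (hyX : y ∉ X) :
    A.card < 2 * (A.filter (fun S => y ∈ S)).card := by
  classical
  -- the member with a given trace
  choose! m hmA hmX using hfull
  have hmu : ∀ S ∈ A, m (S ∩ X) = S := fun S hS =>
    hX _ (hmA _ inter_subset_right) _ hS (hmX _ inter_subset_right)
  have hsplit : A.card = (A.filter (fun S => y ∈ S)).card + (A.filter (fun S => ¬ y ∈ S)).card :=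
    (card_filter_add_card_filter_not _).symm
  -- members are unions of the members with one point traces
  have hunion : ∀ Z W : Finset α, Z ⊆ X → W ⊆ X → m (Z ∪ W) = m Z ∪ m W := by
    intro Z W hZ hW
    apply hX _ (hmA _ (union_subset hZ hW)) _ (huc _ (hmA _ hZ) _ (hmA _ hW))
    rw [hmX _ (union_subset hZ hW), union_inter_distrib_right, hmX _ hZ, hmX _ hW]
  by_cases hy0 : y ∈ m ∅
  · -- the point lies in all members
    have hall : A.filter (fun S => ¬ y ∈ S) = ∅ := by
      rw [filter_eq_empty_iff]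
      intro S hS hyS
      apply hyS
      have h1 := hunion ∅ (S ∩ X) (empty_subset _) inter_subset_right
      rw [empty_union, hmu S hS] at h1
      rw [h1]
      exact mem_union_left _ hy0
    rw [hall, card_empty] at hsplit
    have hpos : 0 < A.card := card_pos.mpr ⟨m ∅, hmA _ (empty_subset _)⟩
    omega
  -- the one point traces whose members contain `y`
  set T := X.filter (fun x => y ∈ m {x}) with hT
  have hchar : ∀ Z : Finset α, Z ⊆ X → (y ∈ m Z ↔ ∃ x ∈ Z, y ∈ m {x}) := by
    intro Z
    induction Z using Finset.induction_on with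
    | empty =>
      intro _
      simp [hy0]
    | insert a Z _ ih =>
      intro hZ
      have ha : a ∈ X := hZ (mem_insert_self a Z)
      have hZX : Z ⊆ X := fun z hz => hZ (mem_insert_of_mem hz)
      rw [insert_eq, hunion {a} Z (singleton_subset_iff.mpr ha) hZX, mem_union, ih hZX]
      constructor
      · rintro (h | ⟨x, hx, h⟩)
        · exact ⟨a, by simp, h⟩
        · exact ⟨x, by simp [hx], h⟩
      · rintro ⟨x, hx, h⟩
        rw [mem_union, mem_singleton] at hx
        rcases hx with rfl | hx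
        · exact Or.inl h
        · exact Or.inr ⟨x, hx, h⟩
  -- some one point trace
  obtain ⟨S0, hS0, hyS0⟩ := (mem_sup).mp hy
  have hyS0' : y ∈ S0 := hyS0
  have h1 : y ∈ m (S0 ∩ X) := by rw [hmu S0 hS0]; exact hyS0'
  obtain ⟨x, hx, hyx⟩ := (hchar _ inter_subset_right).mp h1
  have hxX : x ∈ X := (mem_inter.mp hx).2
  have hxy : x ≠ y := fun e => hyX (e ▸ hxX)
  -- a second one
  have h2 : ∃ z ∈ X, z ≠ x ∧ y ∈ m {z} := by
    by_contra hcon
    push Not at hcon
    obtain ⟨S, hS, h⟩ := hsep x (hXU hxX) y hy hxy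
    have hyS : y ∈ S ↔ x ∈ S := by
      rw [← hmu S hS, hchar _ inter_subset_right]
      constructor
      · rintro ⟨z, hz, hyz⟩
        by_cases hzx : z = x
        · subst hzx
          rw [hmu S hS]
          exact (mem_inter.mp hz).1
        · exact absurd hyz (hcon z (mem_inter.mp hz).2 hzx)
      · intro hxS
        rw [hmu S hS] at hxS
        exact ⟨x, mem_inter.mpr ⟨hxS, hxX⟩, hyx⟩
    rcases h with ⟨h3, h4⟩ | ⟨h3, h4⟩
    · exact h4 (hyS.mpr h3)
    · exact h4 (hyS.mp h3)
  obtain ⟨z, hzX, hzx, hyz⟩ := h2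
  -- members without `y` have traces avoiding both
  have hle : (A.filter (fun S => ¬ y ∈ S)).card ≤ ((X.erase x).erase z).powerset.card := by
    apply card_le_card_of_injOn (fun S => S ∩ X)
    · intro S hS
      simp only [coe_filter, Set.mem_ofPred_eq] at hS
      rw [mem_coe, mem_powerset]
      intro w hw
      rw [mem_inter] at hw
      rw [mem_erase, mem_erase]
      refine ⟨?_, ?_, hw.2⟩
      · rintro rfl
        apply hS.2
        rw [← hmu S hS.1, hchar _ inter_subset_right]
        exact ⟨w, mem_inter.mpr hw, hyz⟩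
      · rintro rfl
        apply hS.2
        rw [← hmu S hS.1, hchar _ inter_subset_right]
        exact ⟨w, mem_inter.mpr hw, hyx⟩
    · intro S hS S' hS' he
      simp only [coe_filter, Set.mem_ofPred_eq] at hS hS'
      exact hX S hS.1 S' hS'.1 he
  have hcardX : A.card = 2 ^ X.card := by
    rw [← card_powerset]
    apply card_nbij' (fun S => S ∩ X) m
    · intro S _
      exact mem_powerset.mpr inter_subset_right
    · intro Z hZ
      exact hmA _ (mem_powerset.mp hZ)
    · intro S hS
      exact hmu S hS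
    · intro Z hZ
      exact hmX _ (mem_powerset.mp hZ)
  have hzX' : z ∈ X.erase x := mem_erase.mpr ⟨hzx, hzX⟩
  rw [card_powerset, card_erase_of_mem hzX', card_erase_of_mem hxX] at hle
  have hX2 : 2 ≤ X.card := by
    have : ({x, z} : Finset α) ⊆ X := by
      intro w hw
      rw [mem_insert, mem_singleton] at hw
      rcases hw with rfl | rfl
      · exact hxX
      · exact hzX
    have h5 := card_le_card this
    rwa [card_pair (fun e => hzx e.symm)] at h5
  obtain ⟨c, hc⟩ : ∃ c, X.card = c + 2 := ⟨X.card - 2, by omega⟩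
  rw [hc] at hle hcardX
  have h6 : c + 2 - 1 - 1 = c := by omega
  rw [h6] at hle
  have h7 : 2 ^ (c + 2) = 4 * 2 ^ c := by ring
  have h8 : 0 < 2 ^ c := by positivity
  omega

/-- **Poonen's conjecture for families which are dense on a determining set.** -/
theorem dense_trace (A : Finset (Finset α)) (hA : A.Nonempty)
    (huc : ∀ S ∈ A, ∀ T ∈ A, S ∪ T ∈ A)
    (hsep : ∀ x ∈ A.sup id, ∀ y ∈ A.sup id, x ≠ y →
      ∃ S ∈ A, (x ∈ S ∧ y ∉ S) ∨ (y ∈ S ∧ x ∉ S))
    (hne : A ≠ (A.sup id).powerset) (X : Finset α)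
    (hX : ∀ S ∈ A, ∀ T ∈ A, S ∩ X = T ∩ X → S = T)
    (hbig : 2 * 2 ^ X.card ≤ 5 * A.card) :
    ∃ x ∈ A.sup id, 2 * (A.filter (fun S => x ∈ S)).card > A.card := by
  classical
  by_contra hcon
  push Not at hcon
  have hAU : ∀ S ∈ A, S ⊆ A.sup id := fun S hS => le_sup (f := id) hS
  -- restrict to the universe
  set Y := X ∩ A.sup id with hYdef
  have hYX : Y.card ≤ X.card := card_le_card inter_subset_left
  have hYU : Y ⊆ A.sup id := inter_subset_right
  have htr : ∀ S ∈ A, S ∩ Y = S ∩ X := by
    intro S hS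
    rw [hYdef]
    ext w
    simp only [mem_inter]
    constructor
    · rintro ⟨h1, h2, _⟩
      exact ⟨h1, h2⟩
    · rintro ⟨h1, h2⟩
      exact ⟨h1, h2, hAU S hS h1⟩
  have hY : ∀ S ∈ A, ∀ T ∈ A, S ∩ Y = T ∩ Y → S = T := by
    intro S hS T hT h
    apply hX S hS T hT
    rw [← htr S hS, ← htr T hT, h]
  have hbigY : 2 * 2 ^ Y.card ≤ 5 * A.card := by
    have : 2 ^ Y.card ≤ 2 ^ X.card := Nat.pow_le_pow_right (by norm_num) hYX
    omega
  -- the trace family
  set B := A.image (fun S => S ∩ Y) with hB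
  have hinj : Set.InjOn (fun S : Finset α => S ∩ Y) (A : Set (Finset α)) :=
    fun S hS T hT h => hY S hS T hT h
  have hcard : B.card = A.card := card_image_of_injOn hinj
  have hfreq : ∀ x ∈ Y, (B.filter (fun S => x ∈ S)).card = (A.filter (fun S => x ∈ S)).card := by
    intro x hx
    have e : B.filter (fun S => x ∈ S) = (A.filter (fun S => x ∈ S)).image (fun S => S ∩ Y) := by
      ext Z
      simp only [hB, mem_filter, mem_image]
      constructor
      · rintro ⟨⟨S, hS, rfl⟩, hxS⟩
        exact ⟨S, ⟨hS, (mem_inter.mp hxS).1⟩, rfl⟩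
      · rintro ⟨S, ⟨hS, hxS⟩, rfl⟩
        exact ⟨⟨S, hS, rfl⟩, mem_inter.mpr ⟨hxS, hx⟩⟩
    rw [e]
    apply card_image_of_injOn
    exact hinj.mono (by
      intro S hS
      exact (mem_filter.mp (mem_coe.mp hS)).1)
  have hBsup : B.sup id = Y := by
    apply Subset.antisymm
    · intro w hw
      rw [mem_sup] at hw
      obtain ⟨Z, hZ, hwZ⟩ := hw
      rw [hB, mem_image] at hZ
      obtain ⟨S, _, rfl⟩ := hZ
      exact (mem_inter.mp hwZ).2
    · intro w hw
      obtain ⟨S, hS, hwS⟩ := mem_sup.mp (hYU hw)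
      rw [mem_sup]
      exact ⟨S ∩ Y, mem_image_of_mem _ hS, mem_inter.mpr ⟨hwS, hw⟩⟩
  have hBuc : ∀ Z ∈ B, ∀ W ∈ B, Z ∪ W ∈ B := by
    intro Z hZ W hW
    rw [hB, mem_image] at hZ hW
    obtain ⟨S, hS, rfl⟩ := hZ
    obtain ⟨T, hT, rfl⟩ := hW
    rw [← union_inter_distrib_right]
    exact mem_image_of_mem _ (huc S hS T hT)
  have hBne : B.Nonempty := hA.image _
  have hcl := classify B hBne hBuc (by rw [hBsup, hcard]; exact hbigY) (by
    intro x hx
    rw [hBsup] at hx
    rw [hfreq x hx, hcard]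
    exact hcon x (hYU hx))
  rw [hBsup] at hcl
  rcases hcl with hfull | ⟨a, ha, b, hb, hab, hpair⟩
  · -- the trace is a power set
    by_cases hYe : Y = A.sup id
    · apply hne
      rw [← hYe, ← hfull, hB]
      have : ∀ S ∈ A, S ∩ Y = S := by
        intro S hS
        rw [hYe]
        exact inter_eq_left.mpr (hAU S hS)
      ext S
      rw [mem_image]
      constructor
      · intro hS
        exact ⟨S, hS, this S hS⟩
      · rintro ⟨T, hT, rfl⟩
        rw [this T hT]
        exact hT
    · obtain ⟨y, hy, hyY⟩ : ∃ y ∈ A.sup id, y ∉ Y := by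
        by_contra h
        push Not at h
        exact hYe (Subset.antisymm hYU h)
      have h1 := trace_power A huc hsep Y hYU hY (by
        intro Z hZ
        have : Z ∈ B := by rw [hfull]; exact mem_powerset.mpr hZ
        rw [hB, mem_image] at this
        exact this) hy hyY
      have h2 := hcon y hy
      omega
  · -- the trace has a doubled point
    obtain ⟨S, hS, h⟩ := hsep a (hYU ha) b (hYU hb) hab
    have h1 : S ∩ Y ∈ B := mem_image_of_mem _ hS
    rw [hpair, mem_filter] at h1
    have h2 := h1.2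
    simp only [mem_inter, ha, hb, and_true] at h2
    rcases h with ⟨h3, h4⟩ | ⟨h3, h4⟩
    · exact h4 (h2.mp h3)
    · exact h4 (h2.mpr h3)

end Pool.Agent.H25
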