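import Pool.Agent.H25.LevelOne

/-!
Total influence plus level one weight of a Boolean function: a lower bound which improves
twice the variance by a multiple of a (truncated) Takagi function of the mean.
-/

set_option autoImplicit false
set_option linter.unusedSectionVars false

namespace Pool.Agent.H25

open Finset Pool.Agent.H67.Cube

variable {α : Type*} [DecidableEq α]

lemma tak_of_zero (n : ℕ) : tak n 0 = 0 := by
  induction n with
  | zero => rfl
  | succ n ih =>
    rw [tak_succ, mul_zero, ih, s_eq_self le_rfl (by norm_num)]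
    norm_num

lemma tak_int (n : ℕ) (z : ℤ) : tak n (z : ℝ) = 0 := by
  have := tak_add_int n 0 z
  rwa [zero_add, tak_of_zero] at this

/-- Total influence plus level one weight minus twice the variance. -/
noncomputable def tau (U : Finset α) (f : Finset α → ℝ) : ℝ :=
  E U f / (2 * 2 ^ U.card) + ∑ x ∈ U, co U f x ^ 2 - 2 + 2 * av U f ^ 2

lemma tau_insert {a : α} {U : Finset α} (ha : a ∉ U) (f h : Finset α → ℝ)
    (hh : ∀ X, h X = (f (insert a X) - f X) / 2) :
    tau (insert a U) f = (tau U f + tau U (fun X => f (insert a X))) / 2 +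
      (av U (fun X => h X ^ 2) - av U h ^ 2 - ∑ x ∈ U, co U h x ^ 2) := by
  have h1 : av U h = (av U (fun X => f (insert a X)) - av U f) / 2 := by
    have e : ∀ X ⊆ U, h X = (1 / 2) * (f (insert a X) - f X) := by
      intro X _
      rw [hh]
      ring
    rw [av_congr e, av_mul, av_sub]
    ring
  have h2 : ∀ x ∈ U, co U h x = (co U (fun X => f (insert a X)) x - co U f x) / 2 := by
    intro x _
    unfold co L
    have e : ∀ X ⊆ U, sg x X * h X =
        (1 / 2) * (sg x X * f (insert a X) - sg x X * f X) := by
      intro X _
      rw [hh]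
      ring
    rw [T_congr e, T_mul, T_sub]
    ring
  have h3 : av U (fun X => h X ^ 2) =
      T U (fun X => (f (insert a X) - f X) ^ 2) / (4 * 2 ^ U.card) := by
    unfold av
    have e : ∀ X ⊆ U, h X ^ 2 = (1 / 4) * (f (insert a X) - f X) ^ 2 := by
      intro X _
      rw [hh]
      ring
    rw [T_congr e, T_mul]
    field_simp
  unfold tau
  rw [E_insert ha, sum_insert ha, co_insert_self ha, av_insert ha, card_insert_of_notMem ha,
    h3, h1]
  have e4 : ∑ x ∈ U, co (insert a U) f x ^ 2 =
      (∑ x ∈ U, co U f x ^ 2 + ∑ x ∈ U, co U (fun X => f (insert a X)) x ^ 2) / 2 -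
        ∑ x ∈ U, co U h x ^ 2 := by
    rw [← sum_add_distrib, sum_div, ← sum_sub_distrib]
    apply sum_congr rfl
    intro x hx
    rw [co_insert ha f hx, h2 x hx]
    ring
  rw [e4, pow_succ]
  field_simp
  ring

/-- The inequality for Boolean functions. -/
theorem boolean_ineq (n : ℕ) (U : Finset α) (f : Finset α → ℝ)
    (hf : ∀ X ⊆ U, f X = 1 ∨ f X = -1) :
    121 / 1000 * tak n (2 * av U f) ≤ tau U f := by
  induction U using Finset.induction_on generalizing f with
  | empty =>
    have h1 : av (∅ : Finset α) f = f ∅ := by simp [av, T]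
    have h2 : tau (∅ : Finset α) f = -2 + 2 * (f ∅) ^ 2 := by
      unfold tau
      rw [h1]
      simp [E]
    rw [h2, h1]
    rcases hf ∅ (Subset.refl _) with e | e
    · rw [e]
      have := tak_int n 2
      push_cast at this
      rw [mul_one, this]
      norm_num
    · rw [e]
      have := tak_int n (-2)
      push_cast at this
      rw [show (2 : ℝ) * -1 = -2 by norm_num, this]
      norm_num
  | insert a U ha ih =>
    have hsub : ∀ X ⊆ U, X ⊆ insert a U := fun X hX => hX.trans (subset_insert _ _)
    have hsub2 : ∀ X ⊆ U, insert a X ⊆ insert a U := fun X hX => insert_subset_insert a hX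
    have i0 := ih f (fun X hX => hf X (hsub X hX))
    have i1 := ih (fun X => f (insert a X)) (fun X hX => hf _ (hsub2 X hX))
    set h : Finset α → ℝ := fun X => (f (insert a X) - f X) / 2 with hh
    have hval : ∀ X ⊆ U, h X = -1 ∨ h X = 0 ∨ h X = 1 := by
      intro X hX
      rcases hf X (hsub X hX) with e1 | e1 <;> rcases hf _ (hsub2 X hX) with e2 | e2 <;>
        simp only [hh, e1, e2] <;> norm_num
    have hl := level_one U h hval
    have habs : av U (fun X => |h X|) = av U (fun X => h X ^ 2) := by
      apply av_congr
      intro X hX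
      rcases hval X hX with e | e | e <;> simp [e]
    rw [habs] at hl
    rw [tau_insert ha f h (fun X => rfl), av_insert ha]
    set m0 := av U f with hm0
    set m1 := av U (fun X => f (insert a X)) with hm1
    have h1 : av U h = (m1 - m0) / 2 := by
      have e : ∀ X ⊆ U, h X = (1 / 2) * (f (insert a X) - f X) := by
        intro X _
        simp only [hh]
        ring
      rw [av_congr e, av_mul, av_sub]
      ring
    rw [show 2 * av U h = m1 - m0 by rw [h1]; ring] at hl
    have hmid := tak_mid n (2 * m1) (2 * m0)
    rw [show (2 * m1 + 2 * m0) / 2 = 2 * ((m0 + m1) / 2) by ring,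
      show (2 * m1 - 2 * m0) / 2 = m1 - m0 by ring] at hmid
    linarith

end Pool.Agent.H25
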