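import Pool.Agent.H25.Dense

/-!
The union-closed families of density at least two fifths without strictly abundant element.
-/

set_option autoImplicit false
set_option linter.unusedSectionVars false

namespace Pool.Agent.H25

open Finset Pool.Agent.H67.Cube

variable {α : Type*} [DecidableEq α]

/-- The subsets of `U` which do not split the pair `a`, `b`. -/
def pairFam (U : Finset α) (a b : α) : Finset (Finset α) :=
  U.powerset.filter (fun X => a ∈ X ↔ b ∈ X)

lemma card_pairFam {U : Finset α} {a b : α} (ha : a ∈ U) (hb : b ∈ U) (hab : a ≠ b) :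
    2 * (pairFam U a b).card = 2 ^ U.card := by
  have h1 : (pairFam U a b).card = (U.powerset.filter (fun X => ¬ (a ∈ X ↔ b ∈ X))).card := by
    apply card_nbij' (fun X => symmDiff X {a}) (fun X => symmDiff X {a})
    · intro X hX
      simp only [pairFam, coe_filter, mem_powerset, Set.mem_ofPred_eq] at hX ⊢
      refine ⟨symmDiff_subset' hX.1 ha, ?_⟩
      simp only [mem_symmDiff, mem_singleton]
      have := hX.2
      have hba : b ≠ a := fun e => hab e.symm
      tauto
    · intro X hX
      simp only [pairFam, coe_filter, mem_powerset, Set.mem_ofPred_eq] at hX ⊢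
      refine ⟨symmDiff_subset' hX.1 ha, ?_⟩
      simp only [mem_symmDiff, mem_singleton]
      have := hX.2
      have hba : b ≠ a := fun e => hab e.symm
      tauto
    · intro X _
      exact symmDiff_symmDiff_cancel_right _ _
    · intro X _
      exact symmDiff_symmDiff_cancel_right _ _
  have h2 := card_filter_add_card_filter_not (s := U.powerset) (fun X => a ∈ X ↔ b ∈ X)
  rw [card_powerset] at h2
  have h3 : (pairFam U a b).card = (U.powerset.filter (fun X => a ∈ X ↔ b ∈ X)).card := rfl
  omega

/-- Classification. -/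
theorem classify (A : Finset (Finset α)) (hA : A.Nonempty)
    (huc : ∀ X ∈ A, ∀ Y ∈ A, X ∪ Y ∈ A)
    (hbig : 2 * 2 ^ (A.sup id).card ≤ 5 * A.card)
    (hno : ∀ x ∈ A.sup id, 2 * (A.filter (fun S => x ∈ S)).card ≤ A.card) :
    A = (A.sup id).powerset ∨ ∃ a ∈ A.sup id, ∃ b ∈ A.sup id, a ≠ b ∧
      A = (A.sup id).powerset.filter (fun X => a ∈ X ↔ b ∈ X) := by
  by_cases hne : A = (A.sup id).powerset
  · exact Or.inl hne
  right
  by_cases hsep : ∀ x ∈ A.sup id, ∀ y ∈ A.sup id, x ≠ y →
      ∃ S ∈ A, (x ∈ S ∧ y ∉ S) ∨ (y ∈ S ∧ x ∉ S)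
  · obtain ⟨x, hx, h⟩ := dense_twofifths A hA huc hsep hne hbig
    exact absurd (hno x hx) (by omega)
  · push Not at hsep
    obtain ⟨a, ha, b, hb, hab, hS⟩ := hsep
    have hAU : ∀ X ∈ A, X ⊆ A.sup id := fun X hX => le_sup (f := id) hX
    have hhalf : 2 ^ (A.sup id).card ≤ 2 * A.card := by
      by_contra hcon
      push Not at hcon
      obtain ⟨x, hx, h⟩ := dense_below A (A.sup id) hAU huc hbig hcon
      exact absurd (hno x hx) (by omega)
    refine ⟨a, ha, b, hb, hab, ?_⟩
    apply eq_of_subset_of_card_le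
    · intro X hX
      rw [mem_filter, mem_powerset]
      refine ⟨hAU X hX, ?_⟩
      have h1 := (hS X hX).1
      have h2 := (hS X hX).2
      exact ⟨fun h => h1 h, fun h => h2 h⟩
    · have h1 := card_pairFam ha hb hab
      unfold pairFam at h1
      omega

end Pool.Agent.H25
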