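import Mathlib

/-!
The signed cube operator and a bound for families of pairwise non adjacent half cubes.
-/

set_option autoImplicit false
set_option linter.unusedSectionVars false

namespace Pool.Agent.H25

open Finset

variable {α : Type*} [DecidableEq α]

/-- The sign attached to the direction `j` at the vertex `B`. -/
noncomputable def eps (ord : α → ℕ) (j : α) (B : Finset α) : ℝ :=
  (-1) ^ (B.filter (fun k => ord k < ord j)).card

lemma eps_sq (ord : α → ℕ) (j : α) (B : Finset α) : eps ord j B ^ 2 = 1 := by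
  unfold eps
  rw [← pow_mul, mul_comm, pow_mul]
  norm_num

lemma eps_symmDiff_of_not (ord : α → ℕ) {j k : α} (h : ¬ ord k < ord j) (B : Finset α) :
    eps ord j (symmDiff B {k}) = eps ord j B := by
  unfold eps
  congr 2
  ext x
  simp only [mem_filter, mem_symmDiff, mem_singleton]
  constructor
  · rintro ⟨h1 | h1, h2⟩
    · exact ⟨h1.1, h2⟩
    · exact absurd (h1.1 ▸ h2) h
  · rintro ⟨h1, h2⟩
    refine ⟨Or.inl ⟨h1, ?_⟩, h2⟩
    rintro rfl
    exact h h2

lemma eps_symmDiff_of_lt (ord : α → ℕ) {j k : α} (h : ord k < ord j) (B : Finset α) :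
    eps ord j (symmDiff B {k}) = - eps ord j B := by
  unfold eps
  by_cases hk : k ∈ B
  · have e1 : B.filter (fun x => ord x < ord j) =
        insert k ((symmDiff B {k}).filter (fun x => ord x < ord j)) := by
      ext x
      simp only [mem_filter, mem_insert, mem_symmDiff, mem_singleton]
      constructor
      · rintro ⟨h1, h2⟩
        by_cases hx : x = k
        · exact Or.inl hx
        · exact Or.inr ⟨Or.inl ⟨h1, hx⟩, h2⟩
      · rintro (rfl | ⟨h1 | h1, h2⟩)
        · exact ⟨hk, h⟩
        · exact ⟨h1.1, h2⟩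
        · exact absurd (h1.1 ▸ hk) h1.2
    have e2 : k ∉ (symmDiff B {k}).filter (fun x => ord x < ord j) := by
      simp [mem_symmDiff, hk]
    rw [e1, card_insert_of_notMem e2, pow_succ]
    ring
  · have e1 : (symmDiff B {k}).filter (fun x => ord x < ord j) =
        insert k (B.filter (fun x => ord x < ord j)) := by
      ext x
      simp only [mem_filter, mem_insert, mem_symmDiff, mem_singleton]
      constructor
      · rintro ⟨h1 | h1, h2⟩
        · exact Or.inr ⟨h1.1, h2⟩
        · exact Or.inl h1.1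
      · rintro (rfl | ⟨h1, h2⟩)
        · exact ⟨Or.inr ⟨rfl, hk⟩, h⟩
        · refine ⟨Or.inl ⟨h1, ?_⟩, h2⟩
          rintro rfl
          exact hk h1
    have e2 : k ∉ B.filter (fun x => ord x < ord j) := by
      simp [hk]
    rw [e1, card_insert_of_notMem e2, pow_succ]
    ring

/-- The signed flip operator in the directions of `J`. -/
noncomputable def S (ord : α → ℕ) (J : Finset α) (φ : Finset α → ℝ) (B : Finset α) : ℝ :=
  ∑ j ∈ J, eps ord j B * φ (symmDiff B {j})

lemma symmDiff_subset' {U B : Finset α} {j : α} (hB : B ⊆ U) (hj : j ∈ U) :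
    symmDiff B {j} ⊆ U := by
  intro x hx
  rw [mem_symmDiff, mem_singleton] at hx
  rcases hx with h | h
  · exact hB h.1
  · exact h.1 ▸ hj

lemma sum_flip (U : Finset α) {j : α} (hj : j ∈ U) (g : Finset α → ℝ) :
    ∑ B ∈ U.powerset, g (symmDiff B {j}) = ∑ B ∈ U.powerset, g B := by
  apply sum_nbij' (fun B => symmDiff B {j}) (fun B => symmDiff B {j})
  · intro B hB
    exact mem_powerset.mpr (symmDiff_subset' (mem_powerset.mp hB) hj)
  · intro B hB
    exact mem_powerset.mpr (symmDiff_subset' (mem_powerset.mp hB) hj)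
  · intro B _
    exact symmDiff_symmDiff_cancel_right _ _
  · intro B _
    exact symmDiff_symmDiff_cancel_right _ _
  · intro B _
    rfl

lemma cross_zero (ord : α → ℕ) {U : Finset α} (hord : Set.InjOn ord U) {j k : α} (hj : j ∈ U)
    (hk : k ∈ U) (hjk : j ≠ k) (φ : Finset α → ℝ) :
    ∑ B ∈ U.powerset, (eps ord j B * φ (symmDiff B {j})) * (eps ord k B * φ (symmDiff B {k})) =
      0 := by
  apply sum_involution (fun B _ => symmDiff (symmDiff B {j}) {k})
  · intro B _
    have h1 : symmDiff (symmDiff (symmDiff B {j}) {k}) {j} = symmDiff B {k} := by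
      rw [symmDiff_right_comm, symmDiff_symmDiff_cancel_right]
    have h2 : symmDiff (symmDiff (symmDiff B {j}) {k}) {k} = symmDiff B {j} :=
      symmDiff_symmDiff_cancel_right _ _
    rw [h1, h2]
    have h3 : ord j ≠ ord k := fun e => hjk (hord hj hk e)
    rcases lt_or_gt_of_ne h3 with h | h
    · have e1 : eps ord j (symmDiff (symmDiff B {j}) {k}) = eps ord j B := by
        rw [eps_symmDiff_of_not ord (by omega), eps_symmDiff_of_not ord (by omega)]
      have e2 : eps ord k (symmDiff (symmDiff B {j}) {k}) = - eps ord k B := by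
        rw [eps_symmDiff_of_not ord (by omega), eps_symmDiff_of_lt ord h]
      rw [e1, e2]
      ring
    · have e1 : eps ord j (symmDiff (symmDiff B {j}) {k}) = - eps ord j B := by
        rw [eps_symmDiff_of_lt ord h, eps_symmDiff_of_not ord (by omega)]
      have e2 : eps ord k (symmDiff (symmDiff B {j}) {k}) = eps ord k B := by
        rw [eps_symmDiff_of_not ord (by omega), eps_symmDiff_of_not ord (by omega)]
      rw [e1, e2]
      ring
  · intro B _ _ he
    have h1 : symmDiff (symmDiff B {j}) {k} = B := he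
    have h2 : j ∈ symmDiff (symmDiff B {j}) {k} ↔ j ∈ B := by rw [h1]
    simp only [mem_symmDiff, mem_singleton] at h2
    tauto
  · intro B _
    change symmDiff (symmDiff (symmDiff (symmDiff B {j}) {k}) {j}) {k} = B
    rw [symmDiff_right_comm (symmDiff B {j}), symmDiff_symmDiff_cancel_right,
      symmDiff_symmDiff_cancel_right]
  · intro B hB
    exact mem_powerset.mpr
      (symmDiff_subset' (symmDiff_subset' (mem_powerset.mp hB) hj) hk)

/-- The signed operator multiplies the square norm by the number of directions. -/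
lemma S_norm (ord : α → ℕ) {U : Finset α} (hord : Set.InjOn ord U) {J : Finset α} (hJ : J ⊆ U)
    (φ : Finset α → ℝ) :
    ∑ B ∈ U.powerset, S ord J φ B ^ 2 = J.card * ∑ B ∈ U.powerset, φ B ^ 2 := by
  have h1 : ∀ B ∈ U.powerset, S ord J φ B ^ 2 = ∑ j ∈ J, ∑ k ∈ J,
      (eps ord j B * φ (symmDiff B {j})) * (eps ord k B * φ (symmDiff B {k})) := by
    intro B _
    unfold S
    rw [sq, sum_mul_sum]
  rw [sum_congr rfl h1, sum_comm]
  have h2 : ∀ j ∈ J, ∑ B ∈ U.powerset, ∑ k ∈ J,
      (eps ord j B * φ (symmDiff B {j})) * (eps ord k B * φ (symmDiff B {k})) =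
      ∑ B ∈ U.powerset, φ B ^ 2 := by
    intro j hj
    rw [sum_comm, sum_eq_single j]
    · rw [← sum_flip U (hJ hj) (fun B => φ B ^ 2)]
      apply sum_congr rfl
      intro B _
      have := eps_sq ord j B
      calc eps ord j B * φ (symmDiff B {j}) * (eps ord j B * φ (symmDiff B {j}))
          = eps ord j B ^ 2 * φ (symmDiff B {j}) ^ 2 := by ring
        _ = φ (symmDiff B {j}) ^ 2 := by rw [this, one_mul]
    · intro k hk hkj
      exact cross_zero ord hord (hJ hj) (hJ hk) (fun e => hkj e.symm) φ
    · intro h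
      exact absurd hj h
  rw [sum_congr rfl h2, sum_const, nsmul_eq_mul]

/-- A nonzero function supported on a set of more than half of the vertices, whose image
vanishes outside of this set. -/
lemma exists_kernel (ord : α → ℕ) (U : Finset α) (D : Finset (Finset α)) (hD : D ⊆ U.powerset)
    (hbig : 2 ^ U.card < 2 * D.card) :
    ∃ φ : Finset α → ℝ, (∃ B ∈ D, φ B ≠ 0) ∧ (∀ B, B ∉ D → φ B = 0) ∧
      ∀ B ∈ U.powerset, B ∉ D → S ord U φ B = 0 := by
  classical
  let ex : ({B // B ∈ D} → ℝ) → Finset α → ℝ :=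
    fun φ B => if h : B ∈ D then φ ⟨B, h⟩ else 0
  have hadd : ∀ φ ψ, ∀ B, ex (φ + ψ) B = ex φ B + ex ψ B := by
    intro φ ψ B
    by_cases h : B ∈ D <;> simp [ex, h]
  have hsmul : ∀ (c : ℝ) φ, ∀ B, ex (c • φ) B = c * ex φ B := by
    intro c φ B
    by_cases h : B ∈ D <;> simp [ex, h]
  let Φ : ({B // B ∈ D} → ℝ) →ₗ[ℝ] ({B // B ∈ U.powerset \ D} → ℝ) :=
    { toFun := fun φ B => S ord U (ex φ) B.1
      map_add' := by
        intro φ ψ
        funext B
        simp only [S, Pi.add_apply]
        rw [← sum_add_distrib]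
        apply sum_congr rfl
        intro j _
        rw [hadd]
        ring
      map_smul' := by
        intro c φ
        funext B
        simp only [S, Pi.smul_apply, smul_eq_mul, RingHom.id_apply]
        rw [mul_sum]
        apply sum_congr rfl
        intro j _
        rw [hsmul]
        ring }
  have hrank : Module.finrank ℝ ({B // B ∈ U.powerset \ D} → ℝ) <
      Module.finrank ℝ ({B // B ∈ D} → ℝ) := by
    rw [Module.finrank_fintype_fun_eq_card, Module.finrank_fintype_fun_eq_card,
      Fintype.card_coe, Fintype.card_coe, card_sdiff_of_subset hD, card_powerset]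
    have := card_le_card hD
    rw [card_powerset] at this
    omega
  have hker := LinearMap.ker_ne_bot_of_finrank_lt (f := Φ) hrank
  obtain ⟨φ, hφ, hφ0⟩ := Submodule.exists_mem_ne_zero_of_ne_bot hker
  rw [LinearMap.mem_ker] at hφ
  refine ⟨ex φ, ?_, ?_, ?_⟩
  · by_contra hcon
    push Not at hcon
    apply hφ0
    funext B
    have := hcon B.1 B.2
    simpa [ex, B.2] using this
  · intro B hB
    simp [ex, hB]
  · intro B hB hBD
    have := congrFun hφ ⟨B, mem_sdiff.mpr ⟨hB, hBD⟩⟩
    exact this

/-- **Half cube bound.** Families `R i` of vertices containing the point `i`, without edges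
between different families and pairwise disjoint, cover at most half of the cube. -/
theorem half_bound (U : Finset α) (R : α → Finset (Finset α))
    (hRU : ∀ i ∈ U, ∀ B ∈ R i, B ⊆ U) (hRi : ∀ i ∈ U, ∀ B ∈ R i, i ∈ B)
    (hdisj : ∀ i ∈ U, ∀ j ∈ U, i ≠ j → ∀ B ∈ R i, B ∉ R j)
    (hadj : ∀ i ∈ U, ∀ j ∈ U, i ≠ j → ∀ B ∈ R i, ∀ k ∈ U, symmDiff B {k} ∉ R j) :
    2 * ∑ i ∈ U, (R i).card ≤ 2 ^ U.card := by
  classical
  obtain ⟨ord, hord⟩ := Set.countable_iff_exists_injOn.mp U.countable_toSet
  set D := U.biUnion R with hDdef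
  have hpd : ∀ i ∈ U, ∀ j ∈ U, i ≠ j → Disjoint (R i) (R j) := by
    intro i hi j hj hij
    rw [disjoint_left]
    intro B hB
    exact hdisj i hi j hj hij B hB
  have hcard : D.card = ∑ i ∈ U, (R i).card := by
    rw [hDdef, card_biUnion hpd]
  rw [← hcard]
  by_contra hcon
  push Not at hcon
  have hDU : D ⊆ U.powerset := by
    intro B hB
    rw [hDdef, mem_biUnion] at hB
    obtain ⟨i, hi, hBi⟩ := hB
    exact mem_powerset.mpr (hRU i hi B hBi)
  obtain ⟨φ, ⟨B0, hB0, hB00⟩, hsupp, hker⟩ := exists_kernel ord U D hDU hcon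
  have hn : ∑ B ∈ U.powerset, S ord U φ B ^ 2 = U.card * ∑ B ∈ U.powerset, φ B ^ 2 :=
    S_norm ord hord (Subset.refl U) φ
  have hD1 : ∑ B ∈ U.powerset, S ord U φ B ^ 2 = ∑ i ∈ U, ∑ B ∈ R i, S ord U φ B ^ 2 := by
    rw [← sum_biUnion hpd, ← hDdef]
    symm
    apply sum_subset hDU
    intro B hB hBD
    rw [hker B hB hBD]
    norm_num
  have hD2 : ∑ B ∈ U.powerset, φ B ^ 2 = ∑ i ∈ U, ∑ B ∈ R i, φ B ^ 2 := by
    rw [← sum_biUnion hpd, ← hDdef]
    symm
    apply sum_subset hDU
    intro B _ hBD
    rw [hsupp B hBD]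
    norm_num
  -- each class
  have hcl : ∀ i ∈ U, ∑ B ∈ R i, S ord U φ B ^ 2 ≤ (U.card - 1 : ℝ) * ∑ B ∈ R i, φ B ^ 2 := by
    intro i hi
    set ψ : Finset α → ℝ := fun B => if B ∈ R i then φ B else 0 with hψ
    have h1 : ∀ B ∈ R i, S ord U φ B = S ord (U.erase i) ψ B := by
      intro B hB
      unfold S
      rw [← insert_erase hi, sum_insert (notMem_erase i U), erase_insert (notMem_erase i U)]
      have h2 : φ (symmDiff B {i}) = 0 := by
        by_cases h : symmDiff B {i} ∈ D
        · exfalso
          rw [hDdef, mem_biUnion] at h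
          obtain ⟨j, hj, hBj⟩ := h
          by_cases hij : i = j
          · subst hij
            have h3 := hRi i hi _ hBj
            rw [mem_symmDiff, mem_singleton] at h3
            have h4 := hRi i hi B hB
            rcases h3 with h3 | h3
            · exact h3.2 rfl
            · exact h3.2 h4
          · exact hadj i hi j hj hij B hB i hi hBj
        · exact hsupp _ h
      rw [h2, mul_zero, zero_add]
      apply sum_congr rfl
      intro j hj
      have hjU : j ∈ U := mem_of_mem_erase hj
      congr 1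
      by_cases h : symmDiff B {j} ∈ R i
      · simp [hψ, h]
      · have h3 : ψ (symmDiff B {j}) = 0 := by simp [hψ, h]
        rw [h3]
        by_cases h4 : symmDiff B {j} ∈ D
        · exfalso
          rw [hDdef, mem_biUnion] at h4
          obtain ⟨l, hl, hBl⟩ := h4
          by_cases hil : i = l
          · subst hil
            exact h hBl
          · exact hadj i hi l hl hil B hB j hjU hBl
        · exact hsupp _ h4
    rw [sum_congr rfl (fun B hB => by rw [h1 B hB])]
    have hRsub : R i ⊆ U.powerset := fun B hB => mem_powerset.mpr (hRU i hi B hB)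
    have h5 : ∑ B ∈ R i, S ord (U.erase i) ψ B ^ 2 ≤
        ∑ B ∈ U.powerset, S ord (U.erase i) ψ B ^ 2 :=
      sum_le_sum_of_subset_of_nonneg hRsub (fun _ _ _ => sq_nonneg _)
    refine h5.trans (le_of_eq ?_)
    rw [S_norm ord hord (erase_subset i U) ψ, card_erase_of_mem hi]
    have h6 : ∑ B ∈ U.powerset, ψ B ^ 2 = ∑ B ∈ R i, φ B ^ 2 := by
      symm
      rw [← sum_subset hRsub]
      · apply sum_congr rfl
        intro B hB
        simp [hψ, hB]
      · intro B _ hB
        simp [hψ, hB]
    rw [h6]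
    have : 1 ≤ U.card := card_pos.mpr ⟨i, hi⟩
    push_cast [Nat.cast_sub this]
    ring
  have hfin : (U.card : ℝ) * ∑ B ∈ U.powerset, φ B ^ 2 ≤
      (U.card - 1 : ℝ) * ∑ B ∈ U.powerset, φ B ^ 2 := by
    rw [← hn, hD1, hD2, mul_sum]
    exact sum_le_sum hcl
  have hpos : 0 < ∑ B ∈ U.powerset, φ B ^ 2 := by
    apply sum_pos' (fun _ _ => sq_nonneg _)
    exact ⟨B0, hDU hB0, by positivity⟩
  linarith

end Pool.Agent.H25
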