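import Pool.Agent.H25.BoolIneq
import Pool.Agent.H25.Signed
import Pool.Agent.H67.PoonenDense

/-!
Strict abundance in union-closed families containing at least two fifths of the cube.
-/

set_option autoImplicit false
set_option linter.unusedSectionVars false

namespace Pool.Agent.H25

open Finset Pool.Agent.H67.Cube

variable {α : Type*} [DecidableEq α]

/-- The part of the boundary of `A` with root `i`. -/
def bd (A : Finset (Finset α)) (U : Finset α) (i : α) : Finset (Finset α) :=
  U.powerset.filter (fun B => i ∈ B ∧ B ∉ A ∧ B.erase i ∈ A)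

lemma mem_bd {A : Finset (Finset α)} {U : Finset α} {i : α} {B : Finset α} :
    B ∈ bd A U i ↔ B ⊆ U ∧ i ∈ B ∧ B ∉ A ∧ B.erase i ∈ A := by
  simp [bd]

/-- Two boundary sets with different roots are not adjacent. -/
lemma bd_adj {A : Finset (Finset α)} {U : Finset α} (huc : ∀ X ∈ A, ∀ Y ∈ A, X ∪ Y ∈ A)
    {i j : α} (hij : i ≠ j) {B C : Finset α} (hB : B ∈ bd A U i) (hC : C ∈ bd A U j)
    {k : α} (hk : k ∉ B) (hCB : C = insert k B) : False := by
  rw [mem_bd] at hB hC
  obtain ⟨_, hiB, hBA, hBi⟩ := hB
  obtain ⟨_, hjC, hCA, hCj⟩ := hC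
  subst hCB
  by_cases hjk : j = k
  · subst hjk
    rw [erase_insert hk] at hCj
    exact hBA hCj
  · apply hCA
    have h := huc _ hCj _ hBi
    have e : (insert k B).erase j ∪ B.erase i = insert k B := by
      ext x
      simp only [mem_union, mem_erase, mem_insert]
      constructor
      · rintro (⟨_, h1⟩ | ⟨_, h1⟩)
        · exact h1
        · exact Or.inr h1
      · intro h1
        by_cases hxj : x = j
        · subst hxj
          right
          refine ⟨fun e => hij e.symm, ?_⟩
          rcases h1 with h1 | h1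
          · exact absurd h1 hjk
          · exact h1
        · exact Or.inl ⟨hxj, h1⟩
    rwa [e] at h

/-- The boundary of a union-closed family covers at most half of the cube. -/
theorem bd_bound (A : Finset (Finset α)) (U : Finset α) (huc : ∀ X ∈ A, ∀ Y ∈ A, X ∪ Y ∈ A) :
    2 * ∑ i ∈ U, (bd A U i).card ≤ 2 ^ U.card := by
  apply half_bound U (bd A U)
  · intro i _ B hB
    exact (mem_bd.mp hB).1
  · intro i _ B hB
    exact (mem_bd.mp hB).2.1
  · intro i _ j _ hij B hB hB'
    rw [mem_bd] at hB hB'
    apply hB.2.2.1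
    have h := huc _ hB.2.2.2 _ hB'.2.2.2
    have e : B.erase i ∪ B.erase j = B := by
      ext x
      simp only [mem_union, mem_erase]
      constructor
      · rintro (⟨_, h1⟩ | ⟨_, h1⟩) <;> exact h1
      · intro h1
        by_cases hx : x = i
        · exact Or.inr ⟨fun e => hij (hx.symm.trans e), h1⟩
        · exact Or.inl ⟨hx, h1⟩
    rwa [e] at h
  · intro i _ j _ hij B hB k _ hC
    by_cases hk : k ∈ B
    · have e : B = insert k (symmDiff B {k}) := by
        ext x
        simp only [mem_insert, mem_symmDiff, mem_singleton]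
        constructor
        · intro h
          by_cases hx : x = k
          · exact Or.inl hx
          · exact Or.inr (Or.inl ⟨h, hx⟩)
        · rintro (rfl | h | h)
          · exact hk
          · exact h.1
          · exact absurd (h.1 ▸ hk) h.2
      have hk2 : k ∉ symmDiff B {k} := by
        simp [mem_symmDiff, hk]
      exact bd_adj huc (fun e => hij e.symm) hC hB hk2 e
    · have e : symmDiff B {k} = insert k B := by
        ext x
        simp only [mem_insert, mem_symmDiff, mem_singleton]
        constructor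
        · rintro (h | h)
          · exact Or.inr h.1
          · exact Or.inl h.1
        · rintro (rfl | h)
          · exact Or.inr ⟨rfl, hk⟩
          · refine Or.inl ⟨h, ?_⟩
            rintro rfl
            exact hk h
      exact bd_adj huc hij hB hC hk e

lemma card_bd (A : Finset (Finset α)) (U : Finset α) {x : α} (hx : x ∈ U) :
    (bd A U x).card =
      ((U.erase x).powerset.filter (fun X => insert x X ∉ A ∧ X ∈ A)).card := by
  symm
  apply card_nbij' (fun X => insert x X) (fun B => B.erase x)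
  · intro X hX
    simp only [coe_filter, mem_powerset, Set.mem_ofPred_eq] at hX
    have hxX : x ∉ X := fun h => (mem_erase.mp (hX.1 h)).1 rfl
    rw [mem_coe, mem_bd]
    refine ⟨insert_subset hx (hX.1.trans (erase_subset _ _)), mem_insert_self _ _, hX.2.1, ?_⟩
    rw [erase_insert hxX]
    exact hX.2.2
  · intro B hB
    rw [mem_coe, mem_bd] at hB
    simp only [coe_filter, mem_powerset, Set.mem_ofPred_eq]
    refine ⟨erase_subset_erase x hB.1, ?_, hB.2.2.2⟩
    rw [insert_erase hB.2.1]
    exact hB.2.2.1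
  · intro X hX
    simp only [coe_filter, mem_powerset, Set.mem_ofPred_eq] at hX
    have hxX : x ∉ X := fun h => (mem_erase.mp (hX.1 h)).1 rfl
    exact erase_insert hxX
  · intro B hB
    rw [mem_coe, mem_bd] at hB
    exact insert_erase hB.2.1

lemma E_ind_eq (A : Finset (Finset α)) (U : Finset α) :
    E U (ind A) = 2 * (∑ x ∈ U, (bd A U x).card : ℕ) - ∑ x ∈ U, L U (ind A) x := by
  unfold E
  push_cast
  rw [mul_sum, ← sum_sub_distrib]
  apply sum_congr rfl
  intro x hx
  rw [L_eq U _ hx, card_bd A U hx, card_filter]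
  push_cast
  rw [mul_sum, ← sum_sub_distrib]
  apply sum_congr rfl
  intro X _
  unfold ind
  by_cases ha : insert x X ∈ A <;> by_cases hb : X ∈ A <;> simp [ha, hb]
  norm_num

/-- Below half of the cube. -/
theorem dense_below (A : Finset (Finset α)) (U : Finset α) (hAU : ∀ X ∈ A, X ⊆ U)
    (huc : ∀ X ∈ A, ∀ Y ∈ A, X ∪ Y ∈ A)
    (hbig : 2 * 2 ^ U.card ≤ 5 * A.card) (hsmall : 2 * A.card < 2 ^ U.card) :
    ∃ x ∈ U, A.card < 2 * (A.filter (fun S => x ∈ S)).card := by
  by_contra hcon
  push Not at hcon
  set N : ℝ := 2 ^ U.card with hN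
  have hNpos : 0 < N := by positivity
  set f : Finset α → ℝ := fun X => 1 - 2 * ind A X with hf
  have hfb : ∀ X ⊆ U, f X = 1 ∨ f X = -1 := by
    intro X _
    by_cases h : X ∈ A
    · left; simp [hf, ind, h]
    · right; simp only [hf, ind, h, if_false]; norm_num
  have hav : av U f = 2 * A.card / N - 1 := by
    unfold av
    rw [hf, T_sub, T_mul, T_ind A U hAU]
    have : T U (fun _ => (1 : ℝ)) = 2 ^ U.card := by simp [T]
    rw [this, ← hN]
    field_simp
    ring
  have hco : ∀ x ∈ U, co U f x = -(2 * L U (ind A) x / N) := by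
    intro x hx
    unfold co
    have h0 : L U (fun _ => 1) x = 0 := by
      rw [L_eq U _ hx]
      simp
    have h1 : L U f x = L U (fun _ => 1) x - 2 * L U (ind A) x := by
      unfold L
      rw [← T_mul, ← T_sub]
      apply T_congr
      intro X _
      simp only [hf]
      ring
    rw [h1, h0, ← hN]
    ring
  have hE : E U f = 4 * E U (ind A) := by
    unfold E
    rw [mul_sum]
    apply sum_congr rfl
    intro x _
    rw [mul_sum]
    apply sum_congr rfl
    intro X _
    simp only [hf]
    ring
  have hb := boolean_ineq 7 U f hfb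
  have hbd := bd_bound A U huc
  have hbd2 : 2 * ((∑ x ∈ U, (bd A U x).card : ℕ) : ℝ) ≤ N := by
    rw [hN]
    exact_mod_cast hbd
  have hEi := E_ind_eq A U
  -- the level one coefficients
  have hl0 : ∀ x ∈ U, 0 ≤ 2 * L U (ind A) x / N := by
    intro x hx
    apply div_nonneg _ hNpos.le
    rw [L_ind A U hAU hx]
    have : (2 * (A.filter (fun S => x ∈ S)).card : ℝ) ≤ A.card := by exact_mod_cast hcon x hx
    linarith
  have hl1 : ∀ x ∈ U, 2 * L U (ind A) x / N ≤ 1 := by
    intro x hx
    rw [div_le_one hNpos]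
    exact L_le A U hAU hx
  have hsq : ∑ x ∈ U, co U f x ^ 2 ≤ ∑ x ∈ U, 2 * L U (ind A) x / N := by
    apply sum_le_sum
    intro x hx
    rw [hco x hx]
    have h0 := hl0 x hx
    have h1 := hl1 x hx
    nlinarith
  have hsum : ∑ x ∈ U, 2 * L U (ind A) x / N = 2 * (∑ x ∈ U, L U (ind A) x) / N := by
    rw [mul_sum, sum_div]
  have htau : tau U f ≤ 2 * (av U f) ^ 2 := by
    unfold tau
    rw [hE, hEi, ← hN]
    rw [hsum] at hsq
    have e : 4 * (2 * ((∑ x ∈ U, (bd A U x).card : ℕ) : ℝ) - ∑ x ∈ U, L U (ind A) x) /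
        (2 * N) = 2 * (2 * ((∑ x ∈ U, (bd A U x).card : ℕ) : ℝ)) / N -
        2 * (∑ x ∈ U, L U (ind A) x) / N := by
      field_simp
      ring
    rw [e]
    have h2 : 2 * (2 * ((∑ x ∈ U, (bd A U x).card : ℕ) : ℝ)) / N ≤ 2 := by
      rw [div_le_iff₀ hNpos]
      linarith
    linarith
  -- the mean
  set η := -av U f with hη
  have hA1 : 2 * N ≤ 5 * A.card := by rw [hN]; exact_mod_cast hbig
  have hA2 : 2 * (A.card : ℝ) < N := by rw [hN]; exact_mod_cast hsmall
  have hη0 : 0 < η := by
    rw [hη, hav]
    have : 2 * (A.card : ℝ) / N < 1 := by rwa [div_lt_one hNpos]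
    linarith
  have hη1 : η ≤ 1 / 5 := by
    rw [hη, hav]
    have : 4 / 5 ≤ 2 * (A.card : ℝ) / N := by
      rw [le_div_iff₀ hNpos]
      linarith
    linarith
  have hlow := tak_lower (c := 121 / 500) (x := 2 * η) rfl (by linarith) (by linarith)
  have e1 : tak 7 (2 * av U f) = tak 7 (2 * η) := by
    rw [hη, ← tak_neg]
    congr 1
    ring
  have e2 : av U f ^ 2 = η ^ 2 := by rw [hη]; ring
  rw [e1] at hb
  rw [e2] at htau
  nlinarith

/-- **Poonen's conjecture for families containing two fifths of the cube.** -/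
theorem dense_twofifths (A : Finset (Finset α)) (hA : A.Nonempty)
    (huc : ∀ X ∈ A, ∀ Y ∈ A, X ∪ Y ∈ A)
    (hsep : ∀ x ∈ A.sup id, ∀ y ∈ A.sup id, x ≠ y →
      ∃ S ∈ A, (x ∈ S ∧ y ∉ S) ∨ (y ∈ S ∧ x ∉ S))
    (hne : A ≠ (A.sup id).powerset)
    (hbig : 2 * 2 ^ (A.sup id).card ≤ 5 * A.card) :
    ∃ x ∈ A.sup id, 2 * (A.filter (fun S => x ∈ S)).card > A.card := by
  rcases le_or_gt (2 ^ (A.sup id).card) (2 * A.card) with h | h
  · exact poonen_dense A hA huc hsep hne h
  · exact dense_below A (A.sup id) (fun X hX => le_sup (f := id) hX) huc hbig h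

end Pool.Agent.H25
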