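import Pool.Agent.H25.Trig
import Pool.Agent.H67.CubeSpec

/-!
A level one inequality for functions with values in the set of the numbers -1, 0, 1 on a
discrete cube.
-/

set_option autoImplicit false
set_option linter.unusedSectionVars false

namespace Pool.Agent.H25

open Finset Pool.Agent.H67.Cube

variable {α : Type*} [DecidableEq α]

/-- Average over the cube of subsets of `U`. -/
noncomputable def av (U : Finset α) (f : Finset α → ℝ) : ℝ := T U f / 2 ^ U.card

/-- Normalised level one coefficient. -/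
noncomputable def co (U : Finset α) (f : Finset α → ℝ) (x : α) : ℝ := L U f x / 2 ^ U.card

/-- Affine function on the cube. -/
noncomputable def aff (U : Finset α) (m0 : ℝ) (m : α → ℝ) (X : Finset α) : ℝ :=
  m0 + ∑ x ∈ U, m x * sg x X

lemma av_congr {U : Finset α} {f g : Finset α → ℝ} (h : ∀ X ⊆ U, f X = g X) :
    av U f = av U g := by
  unfold av
  rw [T_congr h]

lemma av_add (U : Finset α) (f g : Finset α → ℝ) :
    av U (fun X => f X + g X) = av U f + av U g := by
  unfold av
  rw [T_add, add_div]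

lemma av_sub (U : Finset α) (f g : Finset α → ℝ) :
    av U (fun X => f X - g X) = av U f - av U g := by
  unfold av
  rw [T_sub, sub_div]

lemma av_mul (U : Finset α) (c : ℝ) (f : Finset α → ℝ) :
    av U (fun X => c * f X) = c * av U f := by
  unfold av
  rw [T_mul, mul_div_assoc]

lemma av_const (U : Finset α) (c : ℝ) : av U (fun _ => c) = c := by
  unfold av T
  simp

lemma av_mono {U : Finset α} {f g : Finset α → ℝ} (h : ∀ X ⊆ U, f X ≤ g X) :
    av U f ≤ av U g := by
  unfold av T
  apply div_le_div_of_nonneg_right _ (by positivity)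
  apply sum_le_sum
  intro X hX
  exact h X (mem_powerset.mp hX)

lemma abs_av_le (U : Finset α) (f : Finset α → ℝ) : |av U f| ≤ av U (fun X => |f X|) := by
  unfold av T
  rw [abs_div, abs_of_pos (a := (2 : ℝ) ^ U.card) (by positivity)]
  apply div_le_div_of_nonneg_right _ (by positivity)
  exact abs_sum_le_sum_abs _ _

lemma av_insert {a : α} {U : Finset α} (h : a ∉ U) (f : Finset α → ℝ) :
    av (insert a U) f = (av U f + av U (fun X => f (insert a X))) / 2 := by
  unfold av
  rw [T_insert h, card_insert_of_notMem h, pow_succ]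
  field_simp

lemma co_insert {a : α} {U : Finset α} (h : a ∉ U) (f : Finset α → ℝ) {x : α} (hx : x ∈ U) :
    co (insert a U) f x = (co U f x + co U (fun X => f (insert a X)) x) / 2 := by
  unfold co
  rw [L_insert h f hx, card_insert_of_notMem h, pow_succ]
  field_simp

lemma co_insert_self {a : α} {U : Finset α} (h : a ∉ U) (f : Finset α → ℝ) :
    co (insert a U) f a = (av U (fun X => f (insert a X)) - av U f) / 2 := by
  unfold co av
  rw [L_insert_self h, card_insert_of_notMem h, pow_succ]
  field_simp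

lemma aff_insert_zero {a : α} {U : Finset α} (h : a ∉ U) (m0 : ℝ) (m : α → ℝ) {X : Finset α}
    (hX : X ⊆ U) : aff (insert a U) m0 m X = aff U (m0 - m a) m X := by
  unfold aff
  rw [sum_insert h]
  have : sg a X = -1 := by
    unfold sg
    rw [if_neg (fun e => h (hX e))]
  rw [this]
  ring

lemma aff_insert_one {a : α} {U : Finset α} (h : a ∉ U) (m0 : ℝ) (m : α → ℝ) (X : Finset α) :
    aff (insert a U) m0 m (insert a X) = aff U (m0 + m a) m X := by
  unfold aff
  rw [sum_insert h]
  have h1 : sg a (insert a X) = 1 := by simp [sg]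
  have h2 : ∀ x ∈ U, m x * sg x (insert a X) = m x * sg x X := by
    intro x hx
    have hne : x ≠ a := fun e => h (e ▸ hx)
    simp [sg, mem_insert, hne]
  rw [h1, sum_congr rfl h2]
  ring

lemma av_cos (U : Finset α) (c : ℝ) (w : α → ℝ) :
    av U (fun X => Real.cos (aff U c w X)) = Real.cos c * ∏ x ∈ U, Real.cos (w x) := by
  induction U using Finset.induction_on generalizing c with
  | empty => simp [av, T, aff]
  | insert a U ha ih =>
    rw [av_insert ha, av_congr (g := fun X => Real.cos (aff U (c - w a) w X))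
      (fun X hX => by rw [aff_insert_zero ha c w hX]), ih (c - w a),
      av_congr (U := U) (g := fun X => Real.cos (aff U (c + w a) w X))
      (fun X _ => by rw [aff_insert_one ha c w X]), ih (c + w a), prod_insert ha,
      Real.cos_sub, Real.cos_add]
    ring

lemma av_aff_sq (U : Finset α) (m0 : ℝ) (m : α → ℝ) :
    av U (fun X => (aff U m0 m X) ^ 2) = m0 ^ 2 + ∑ x ∈ U, m x ^ 2 := by
  induction U using Finset.induction_on generalizing m0 with
  | empty => simp [av, T, aff]
  | insert a U ha ih =>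
    rw [av_insert ha, av_congr (g := fun X => (aff U (m0 - m a) m X) ^ 2)
      (fun X hX => by rw [aff_insert_zero ha m0 m hX]), ih (m0 - m a),
      av_congr (U := U) (g := fun X => (aff U (m0 + m a) m X) ^ 2)
      (fun X _ => by rw [aff_insert_one ha m0 m X]), ih (m0 + m a), sum_insert ha]
    ring

lemma av_mul_aff (U : Finset α) (h : Finset α → ℝ) (m0 : ℝ) (m : α → ℝ) :
    av U (fun X => h X * aff U m0 m X) = m0 * av U h + ∑ x ∈ U, m x * co U h x := by
  unfold av co L T aff
  rw [show (∑ X ∈ U.powerset, h X * (m0 + ∑ x ∈ U, m x * sg x X)) =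
    m0 * ∑ X ∈ U.powerset, h X + ∑ x ∈ U, m x * ∑ X ∈ U.powerset, sg x X * h X by
      rw [mul_sum]
      have : ∀ x ∈ U, m x * ∑ X ∈ U.powerset, sg x X * h X =
          ∑ X ∈ U.powerset, m x * (sg x X * h X) := fun x _ => mul_sum _ _ _
      rw [sum_congr rfl this, sum_comm, ← sum_add_distrib]
      apply sum_congr rfl
      intro X _
      rw [mul_add, mul_sum]
      congr 1
      · ring
      · apply sum_congr rfl
        intro x _
        ring]
  rw [add_div, mul_div_assoc]
  congr 1
  rw [sum_div]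
  apply sum_congr rfl
  intro x _
  rw [mul_div_assoc]

/-- The distance from `h` to an affine function. -/
lemma av_sub_aff_sq (U : Finset α) (h : Finset α → ℝ) (m0 : ℝ) (m : α → ℝ) :
    av U (fun X => (h X - aff U m0 m X) ^ 2) =
      (av U (fun X => h X ^ 2) - av U h ^ 2 - ∑ x ∈ U, co U h x ^ 2) +
        ((av U h - m0) ^ 2 + ∑ x ∈ U, (co U h x - m x) ^ 2) := by
  have e : ∀ X ⊆ U, (h X - aff U m0 m X) ^ 2 =
      (h X ^ 2 + (aff U m0 m X) ^ 2) - 2 * (h X * aff U m0 m X) := by
    intro X _
    ring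
  rw [av_congr e, av_sub, av_add, av_mul, av_aff_sq, av_mul_aff]
  have e2 : ∑ x ∈ U, (co U h x - m x) ^ 2 =
      ∑ x ∈ U, co U h x ^ 2 + ∑ x ∈ U, m x ^ 2 - 2 * ∑ x ∈ U, m x * co U h x := by
    rw [mul_sum, ← sum_add_distrib, ← sum_sub_distrib]
    apply sum_congr rfl
    intro x _
    ring
  rw [e2]
  ring

/-- Nearest half integer, as an integer. -/
noncomputable def rd (v : ℝ) : ℤ := round (2 * v)

lemma abs_sub_rd (v : ℝ) : |v - (rd v : ℝ) / 2| = s (2 * v) / 2 := by
  unfold rd s
  rw [show v - (round (2 * v) : ℝ) / 2 = (2 * v - round (2 * v)) / 2 by ring, abs_div, abs_two]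

lemma abs_sub_rd_le (v : ℝ) : |v - (rd v : ℝ) / 2| ≤ 1 / 4 := by
  rw [abs_sub_rd]
  have := s_le_half (2 * v)
  linarith

/-- Twice an affine function with half integer coefficients. -/
lemma aff_rd (U : Finset α) (k0 : ℤ) (k : α → ℤ) {X : Finset α} (_hX : X ⊆ U) :
    aff U ((k0 : ℝ) / 2) (fun x => (k x : ℝ) / 2) X =
      ((k0 + ∑ x ∈ U, k x : ℤ) : ℝ) / 2 - ((∑ x ∈ U, if x ∈ X then 0 else k x : ℤ) : ℝ) := by
  unfold aff sg
  push_cast
  rw [add_div, add_sub_assoc, sum_div, ← sum_sub_distrib]
  congr 1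
  apply sum_congr rfl
  intro x _
  split_ifs
  · simp
  · ring

/-- **The level one inequality.** -/
theorem level_one (U : Finset α) (h : Finset α → ℝ)
    (hh : ∀ X ⊆ U, h X = -1 ∨ h X = 0 ∨ h X = 1) :
    121 / 500 * (s (2 * av U h) / 2) ≤
      av U (fun X => |h X|) - av U h ^ 2 - ∑ x ∈ U, co U h x ^ 2 := by
  have habs : av U (fun X => |h X|) = av U (fun X => h X ^ 2) := by
    apply av_congr
    intro X hX
    rcases hh X hX with e | e | e <;> simp [e]
  rw [habs]
  set V := av U (fun X => h X ^ 2) - av U h ^ 2 - ∑ x ∈ U, co U h x ^ 2 with hV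
  have hhint : ∀ X ⊆ U, ∃ z : ℤ, h X = z := by
    intro X hX
    rcases hh X hX with e | e | e
    · exact ⟨-1, by simp [e]⟩
    · exact ⟨0, by simp [e]⟩
    · exact ⟨1, by simp [e]⟩
  set k0 : ℤ := rd (av U h) with hk0
  set k : α → ℤ := fun x => rd (co U h x) with hk
  set w0 : ℝ := av U h - (k0 : ℝ) / 2 with hw0
  set w : α → ℝ := fun x => co U h x - (k x : ℝ) / 2 with hw
  set t := s (2 * av U h) / 2 with ht
  have ht0 : 0 ≤ t := by
    have := s_nonneg (2 * av U h)
    linarith
  have ht1 : t ≤ 1 / 4 := by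
    have := s_le_half (2 * av U h)
    linarith
  have hw0t : |w0| = t := abs_sub_rd (av U h)
  -- distance of `h` to its projection
  have hL : av U (fun X => (h X - aff U (av U h) (co U h) X) ^ 2) = V := by
    rw [av_sub_aff_sq]
    simp [hV]
  have hLs : av U (fun X => s (aff U (av U h) (co U h) X) ^ 2) ≤ V := by
    rw [← hL]
    apply av_mono
    intro X hX
    obtain ⟨z, hz⟩ := hhint X hX
    have h1 := s_le (aff U (av U h) (co U h) X) z
    rw [hz, ← sq_abs ((z : ℝ) - _), abs_sub_comm]
    exact pow_le_pow_left₀ (s_nonneg _) h1 2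
  set C := av U (fun X => Real.cos (2 * Real.pi * aff U (av U h) (co U h) X)) with hC
  have hb1 : (1 - C) / (2 * Real.pi ^ 2) ≤ V := by
    refine le_trans ?_ hLs
    have e : (1 - C) / (2 * Real.pi ^ 2) =
        av U (fun X => (1 - Real.cos (2 * Real.pi * aff U (av U h) (co U h) X)) /
          (2 * Real.pi ^ 2)) := by
      have : ∀ X ⊆ U, (1 - Real.cos (2 * Real.pi * aff U (av U h) (co U h) X)) /
          (2 * Real.pi ^ 2) = (2 * Real.pi ^ 2)⁻¹ *
          (1 - Real.cos (2 * Real.pi * aff U (av U h) (co U h) X)) := by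
        intro X _
        rw [div_eq_inv_mul]
      rw [av_congr this, av_mul, av_sub, av_const, div_eq_inv_mul]
    rw [e]
    apply av_mono
    intro X _
    exact s_sq_ge_one _
  have hb2 : 1 / 16 - C / (4 * Real.pi) ≤ V := by
    refine le_trans ?_ hLs
    have e : 1 / 16 - C / (4 * Real.pi) =
        av U (fun X => 1 / 16 - Real.cos (2 * Real.pi * aff U (av U h) (co U h) X) /
          (4 * Real.pi)) := by
      have : ∀ X ⊆ U, 1 / 16 - Real.cos (2 * Real.pi * aff U (av U h) (co U h) X) /
          (4 * Real.pi) = 1 / 16 - (4 * Real.pi)⁻¹ *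
          Real.cos (2 * Real.pi * aff U (av U h) (co U h) X) := by
        intro X _
        rw [div_eq_inv_mul _ (4 * Real.pi)]
      rw [av_congr this, av_sub, av_mul, av_const, div_eq_inv_mul _ (4 * Real.pi)]
    rw [e]
    apply av_mono
    intro X _
    exact s_sq_ge_two _
  -- the residual product
  set P := Real.cos (2 * Real.pi * w0) * ∏ x ∈ U, Real.cos (2 * Real.pi * w x) with hP
  set r := w0 ^ 2 + ∑ x ∈ U, w x ^ 2 with hr
  have hpi := Real.pi_pos
  have hwx : ∀ x, |w x| ≤ 1 / 4 := fun x => abs_sub_rd_le (co U h x)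
  have hw00 : |w0| ≤ 1 / 4 := abs_sub_rd_le (av U h)
  have hcos0 : ∀ y : ℝ, |y| ≤ 1 / 4 → 0 ≤ Real.cos (2 * Real.pi * y) := by
    intro y hy
    rw [abs_le] at hy
    apply Real.cos_nonneg_of_neg_pi_div_two_le_of_le
    · nlinarith
    · nlinarith
  have hcosle : ∀ y : ℝ, |y| ≤ 1 / 4 →
      Real.cos (2 * Real.pi * y) ≤ Real.exp (-(2 * Real.pi ^ 2 * y ^ 2)) := by
    intro y hy
    have h1 : |2 * Real.pi * y| ≤ Real.pi / 2 := by
      rw [abs_mul, abs_of_pos (by positivity : (0 : ℝ) < 2 * Real.pi)]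
      nlinarith
    refine (cos_le_exp h1).trans (le_of_eq ?_)
    congr 1
    ring
  have hP0 : 0 ≤ P := mul_nonneg (hcos0 _ hw00) (prod_nonneg fun x _ => hcos0 _ (hwx x))
  have hP1 : P ≤ Real.exp (-(2 * Real.pi ^ 2 * r)) := by
    have e : Real.exp (-(2 * Real.pi ^ 2 * r)) = Real.exp (-(2 * Real.pi ^ 2 * w0 ^ 2)) *
        ∏ x ∈ U, Real.exp (-(2 * Real.pi ^ 2 * w x ^ 2)) := by
      rw [← Real.exp_sum, ← Real.exp_add]
      congr 1
      rw [hr, mul_add, neg_add, mul_sum, sum_neg_distrib]
    rw [e]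
    apply mul_le_mul (hcosle _ hw00) _ (prod_nonneg fun x _ => hcos0 _ (hwx x))
      (Real.exp_pos _).le
    exact prod_le_prod (fun x _ => hcos0 _ (hwx x)) (fun x _ => hcosle _ (hwx x))
  have havP : av U (fun X => Real.cos (2 * Real.pi * aff U w0 w X)) = P := by
    have e : ∀ X ⊆ U, Real.cos (2 * Real.pi * aff U w0 w X) =
        Real.cos (aff U (2 * Real.pi * w0) (fun x => 2 * Real.pi * w x) X) := by
      intro X _
      congr 1
      unfold aff
      rw [mul_add, mul_sum]
      congr 1
      apply sum_congr rfl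
      intro x _
      ring
    rw [av_congr e, av_cos]
  -- decomposition of the projection
  have hdec : ∀ X ⊆ U, aff U (av U h) (co U h) X = aff U w0 w X +
      aff U ((k0 : ℝ) / 2) (fun x => (k x : ℝ) / 2) X := by
    intro X _
    unfold aff
    have : ∀ x ∈ U, co U h x * sg x X = w x * sg x X + (k x : ℝ) / 2 * sg x X := by
      intro x _
      simp only [hw]
      ring
    rw [sum_congr rfl this, sum_add_distrib, hw0]
    ring
  rcases Int.even_or_odd (k0 + ∑ x ∈ U, k x) with ⟨K, hK⟩ | ⟨K, hK⟩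
  · -- even case
    have hZ : ∀ X ⊆ U, ∃ z : ℤ,
        aff U ((k0 : ℝ) / 2) (fun x => (k x : ℝ) / 2) X = z := by
      intro X hX
      refine ⟨K - ∑ x ∈ U, (if x ∈ X then 0 else k x), ?_⟩
      rw [aff_rd U k0 k hX, hK]
      push_cast
      ring
    have hCP : C = P := by
      rw [hC, ← havP]
      apply av_congr
      intro X hX
      obtain ⟨z, hz⟩ := hZ X hX
      rw [hdec X hX, hz]
      have : 2 * Real.pi * (aff U w0 w X + (z : ℝ)) =
          2 * Real.pi * aff U w0 w X + (z : ℝ) * (2 * Real.pi) := by ring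
      rw [this, Real.cos_add_int_mul_two_pi]
    rw [hCP] at hb1 hb2
    apply numeric ht0 ht1 hP1 hb1 hb2
    -- the third bound
    have h3 : av U (fun X => (h X - aff U ((k0 : ℝ) / 2) (fun x => (k x : ℝ) / 2) X) ^ 2) =
        V + r := by
      rw [av_sub_aff_sq]
    have h4 : t ≤ V + r := by
      rw [← h3, ← hw0t]
      have h5 : w0 = av U (fun X => h X - aff U ((k0 : ℝ) / 2) (fun x => (k x : ℝ) / 2) X) := by
        rw [av_sub]
        have h6 : av U (fun X => aff U ((k0 : ℝ) / 2) (fun x => (k x : ℝ) / 2) X) =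
            (k0 : ℝ) / 2 := by
          have h7 := av_mul_aff U (fun _ => 1) ((k0 : ℝ) / 2) (fun x => (k x : ℝ) / 2)
          simp only [one_mul, av_const, mul_one] at h7
          rw [h7]
          have h8 : ∀ x ∈ U, (k x : ℝ) / 2 * co U (fun _ => 1) x = 0 := by
            intro x hx
            have h9 : co U (fun _ => (1 : ℝ)) x = 0 := by
              rw [← insert_erase hx, co_insert_self (notMem_erase x U), av_const]
              simp
            rw [h9, mul_zero]
          rw [sum_eq_zero h8, add_zero]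
        rw [h6]
      rw [h5]
      refine (abs_av_le _ _).trans (av_mono ?_)
      intro X hX
      obtain ⟨z, hz⟩ := hZ X hX
      obtain ⟨y, hy⟩ := hhint X hX
      rw [hz, hy]
      have h6 : |(y : ℝ) - z| = ((|y - z| : ℤ) : ℝ) := by push_cast; rfl
      have h7 : ((y : ℝ) - z) ^ 2 = (((y - z) ^ 2 : ℤ) : ℝ) := by push_cast; rfl
      rw [h6, h7, ← sq_abs (y - z)]
      have h8 : |y - z| ≤ |y - z| ^ 2 := by
        rcases (abs_nonneg (y - z)).eq_or_lt with h9 | h9
        · rw [← h9]
          norm_num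
        · nlinarith
      exact_mod_cast h8
    linarith
  · -- odd case
    have hZ : ∀ X ⊆ U, ∃ z : ℤ,
        aff U ((k0 : ℝ) / 2) (fun x => (k x : ℝ) / 2) X = z + 1 / 2 := by
      intro X hX
      refine ⟨K - ∑ x ∈ U, (if x ∈ X then 0 else k x), ?_⟩
      rw [aff_rd U k0 k hX, hK]
      push_cast
      ring
    have hCP : C = -P := by
      rw [hC, ← havP]
      have e : ∀ X ⊆ U, Real.cos (2 * Real.pi * aff U (av U h) (co U h) X) =
          (-1) * Real.cos (2 * Real.pi * aff U w0 w X) := by
        intro X hX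
        obtain ⟨z, hz⟩ := hZ X hX
        rw [hdec X hX, hz]
        have : 2 * Real.pi * (aff U w0 w X + ((z : ℝ) + 1 / 2)) =
            (2 * Real.pi * aff U w0 w X + Real.pi) + (z : ℝ) * (2 * Real.pi) := by ring
        rw [this, Real.cos_add_int_mul_two_pi, Real.cos_add_pi]
        ring
      rw [av_congr e, av_mul]
      ring
    have h1 : 0 ≤ P / (4 * Real.pi) := by positivity
    have h2 : 1 / 16 ≤ V := by
      rw [hCP, neg_div] at hb2
      linarith
    linarith

end Pool.Agent.H25
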