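import Pool.Agent.H25.Trace

/-!
Poonen's strengthening of the union-closed sets conjecture holds for every separating
union-closed family that contains at least two fifths of the subsets of its universe, and more
generally for every one with at least `(2 / 5) * 2 ^ |X|` members, if distinct members have
distinct traces on the set `X`.
-/

set_option autoImplicit false

namespace Pool.Agent.H25.OffTwoFifths

/-- Let `A` be a nonempty finite union-closed family of finite sets with universe `U = ⋃ A` that
separates the points of `U` and is not the power set of `U`. Let `X` be a finite set such that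
distinct members of `A` have distinct intersections with `X` (for instance `X = U`), and let `A`
have at least `(2 / 5) * 2 ^ |X|` members. Then some point of `U` lies in strictly more than half
of the members of `A`. -/
theorem result {α : Type*} [DecidableEq α] (A : Finset (Finset α)) (hA : A.Nonempty)
    (huc : ∀ S ∈ A, ∀ T ∈ A, S ∪ T ∈ A)
    (hsep : ∀ x ∈ A.sup id, ∀ y ∈ A.sup id, x ≠ y →
      ∃ S ∈ A, (x ∈ S ∧ y ∉ S) ∨ (y ∈ S ∧ x ∉ S))
    (hne : A ≠ (A.sup id).powerset)
    (X : Finset α) (hX : ∀ S ∈ A, ∀ T ∈ A, S ∩ X = T ∩ X → S = T)
    (hbig : 2 * 2 ^ X.card ≤ 5 * A.card) :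
    ∃ x ∈ A.sup id, 2 * (A.filter (fun S => x ∈ S)).card > A.card :=
  Pool.Agent.H25.dense_trace A hA huc hsep hne X hX hbig

end Pool.Agent.H25.OffTwoFifths
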