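import Mathlib

/-!
Truncated Takagi functions and their approximate midpoint convexity.
-/

set_option autoImplicit false

namespace Pool.Agent.H25

/-- Distance to the nearest integer. -/
noncomputable def s (x : ℝ) : ℝ := |x - round x|

lemma s_nonneg (x : ℝ) : 0 ≤ s x := abs_nonneg _

lemma s_le (x : ℝ) (z : ℤ) : s x ≤ |x - z| := round_le x z

lemma s_le_half (x : ℝ) : s x ≤ 1 / 2 := abs_sub_round x

lemma s_add_int (x : ℝ) (z : ℤ) : s (x + z) = s x := by
  unfold s
  rw [round_add_intCast]
  push_cast
  congr 1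
  ring

lemma s_neg (x : ℝ) : s (-x) = s x := by
  have key : ∀ y : ℝ, s (-y) ≤ s y := by
    intro y
    have h := s_le (-y) (-round y)
    have h2 : |(-y) - ((-round y : ℤ) : ℝ)| = s y := by
      unfold s
      rw [← abs_neg]
      congr 1
      push_cast
      ring
    rwa [h2] at h
  apply le_antisymm (key x)
  have := key (-x)
  rwa [neg_neg] at this

lemma s_add_le (x y : ℝ) : s (x + y) ≤ s x + s y := by
  have h := s_le (x + y) (round x + round y)
  unfold s at *
  refine h.trans ?_
  have : x + y - ((round x + round y : ℤ) : ℝ) = (x - round x) + (y - round y) := by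
    push_cast; ring
  rw [this]
  exact abs_add_le _ _

lemma s_eq_self {x : ℝ} (h0 : 0 ≤ x) (h1 : x ≤ 1 / 2) : s x = x := by
  apply le_antisymm
  · have h := s_le x 0
    simpa [abs_of_nonneg h0] using h
  · unfold s
    rcases le_or_gt (round x) 0 with hz | hz
    · have : ((round x : ℤ) : ℝ) ≤ 0 := by exact_mod_cast hz
      rw [abs_of_nonneg (by linarith)]
      linarith
    · have : (1 : ℝ) ≤ ((round x : ℤ) : ℝ) := by exact_mod_cast hz
      rw [abs_of_nonpos (by linarith)]
      linarith

/-- Truncated Takagi function. -/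
noncomputable def tak : ℕ → ℝ → ℝ
  | 0, _ => 0
  | (n + 1), x => s x + tak n (2 * x) / 2

@[simp] lemma tak_zero (x : ℝ) : tak 0 x = 0 := rfl

lemma tak_succ (n : ℕ) (x : ℝ) : tak (n + 1) x = s x + tak n (2 * x) / 2 := rfl

lemma tak_nonneg (n : ℕ) (x : ℝ) : 0 ≤ tak n x := by
  induction n generalizing x with
  | zero => simp
  | succ n ih =>
    rw [tak_succ]
    have := ih (2 * x)
    have := s_nonneg x
    linarith

lemma tak_add_int (n : ℕ) (x : ℝ) (z : ℤ) : tak n (x + z) = tak n x := by
  induction n generalizing x z with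
  | zero => simp
  | succ n ih =>
    rw [tak_succ, tak_succ, s_add_int]
    have : 2 * (x + (z : ℝ)) = 2 * x + ((2 * z : ℤ) : ℝ) := by push_cast; ring
    rw [this, ih]

lemma tak_neg (n : ℕ) (x : ℝ) : tak n (-x) = tak n x := by
  induction n generalizing x with
  | zero => simp
  | succ n ih =>
    rw [tak_succ, tak_succ, s_neg]
    have : 2 * (-x) = -(2 * x) := by ring
    rw [this, ih]

lemma tak_one_sub (n : ℕ) (x : ℝ) : tak n (1 - x) = tak n x := by
  have h := tak_add_int n (-x) 1
  rw [tak_neg] at h
  rw [← h]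
  congr 1
  push_cast
  ring

lemma tak_add_le (n : ℕ) (x y : ℝ) : tak n (x + y) ≤ tak n x + tak n y := by
  induction n generalizing x y with
  | zero => simp
  | succ n ih =>
    rw [tak_succ, tak_succ, tak_succ]
    have h1 := s_add_le x y
    have h2 := ih (2 * x) (2 * y)
    rw [show 2 * (x + y) = 2 * x + 2 * y by ring]
    linarith

lemma tak_sub_le (n : ℕ) (x y : ℝ) : tak n (x - y) ≤ tak n x + tak n y := by
  have h := tak_add_le n x (-y)
  rw [tak_neg] at h
  rwa [← sub_eq_add_neg] at h

lemma tak_le_succ (n : ℕ) (x : ℝ) : tak n x ≤ tak (n + 1) x := by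
  induction n generalizing x with
  | zero => exact tak_nonneg 1 x
  | succ n ih =>
    rw [tak_succ n, tak_succ (n + 1)]
    have := ih (2 * x)
    linarith

lemma tak_succ_of_le (n : ℕ) {x : ℝ} (h0 : 0 ≤ x) (h1 : x ≤ 1 / 2) :
    tak (n + 1) x = x + tak n (2 * x) / 2 := by
  rw [tak_succ, s_eq_self h0 h1]

lemma tak_le_double (n : ℕ) {x : ℝ} (h0 : 0 ≤ x) (h1 : x ≤ 1 / 2) :
    tak n x ≤ x + tak n (2 * x) / 2 := by
  rw [← tak_succ_of_le n h0 h1]
  exact tak_le_succ n x

/-- Straddling the point one half. -/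
lemma tak_case3 (n : ℕ) {a b : ℝ} (hb : 0 ≤ b) (hba : b ≤ a) (ha : a ≤ 1 / 2) :
    tak (n + 1) (1 / 2 - (a - b) / 2) ≤
      (tak (n + 1) (1 / 2 - a) + tak (n + 1) (1 / 2 + b)) / 2 + (a + b) / 2 := by
  have e1 : tak (n + 1) (1 / 2 + b) = tak (n + 1) (1 / 2 - b) := by
    rw [← tak_one_sub (n + 1) (1 / 2 - b)]
    congr 1
    ring
  rw [e1, tak_succ_of_le n (x := 1 / 2 - (a - b) / 2) (by linarith) (by linarith),
    tak_succ_of_le n (x := 1 / 2 - a) (by linarith) (by linarith),
    tak_succ_of_le n (x := 1 / 2 - b) (by linarith) (by linarith)]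
  have e2 : tak n (2 * (1 / 2 - (a - b) / 2)) = tak n (a - b) := by
    rw [← tak_one_sub n (a - b)]
    congr 1
    ring
  have e3 : tak n (2 * (1 / 2 - a)) = tak n (2 * a) := by
    rw [← tak_one_sub n (2 * a)]
    congr 1
    ring
  have e4 : tak n (2 * (1 / 2 - b)) = tak n (2 * b) := by
    rw [← tak_one_sub n (2 * b)]
    congr 1
    ring
  rw [e2, e3, e4]
  have h1 := tak_le_double n (x := a - b) (by linarith) (by linarith)
  have h2 := tak_sub_le n (2 * a) (2 * b)
  rw [show 2 * (a - b) = 2 * a - 2 * b by ring] at h1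
  linarith

/-- Straddling an integer. -/
lemma tak_case4 (n : ℕ) {a b : ℝ} (hb : 0 ≤ b) (hba : b ≤ a) (hab : a + b ≤ 1) :
    tak (n + 1) ((b - a) / 2) ≤
      (tak (n + 1) (-a) + tak (n + 1) b) / 2 + (a + b) / 2 := by
  have e1 : tak (n + 1) ((b - a) / 2) = tak (n + 1) ((a - b) / 2) := by
    rw [← tak_neg (n + 1) ((a - b) / 2)]
    congr 1
    ring
  rw [e1, tak_neg, tak_succ_of_le n (x := (a - b) / 2) (by linarith) (by linarith)]
  rw [show 2 * ((a - b) / 2) = a - b by ring]
  have h1 := tak_sub_le n a b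
  have h2 := tak_le_succ n a
  have h3 := tak_le_succ n b
  linarith

/-- Approximate midpoint convexity for nearby points, ordered. -/
lemma tak_mid_aux (n : ℕ) : ∀ x y : ℝ, x ≤ y → y - x ≤ 1 →
    tak n ((x + y) / 2) ≤ (tak n x + tak n y) / 2 + (y - x) / 2 := by
  induction n with
  | zero =>
    intro x y h _
    simp only [tak_zero]
    linarith
  | succ n ih =>
    -- both in the first half
    have case1 : ∀ x y : ℝ, 0 ≤ x → x ≤ y → y ≤ 1 / 2 →
        tak (n + 1) ((x + y) / 2) ≤ (tak (n + 1) x + tak (n + 1) y) / 2 + (y - x) / 2 := by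
      intro x y hx hxy hy
      rw [tak_succ_of_le n (x := (x + y) / 2) (by linarith) (by linarith),
        tak_succ_of_le n (x := x) (by linarith) (by linarith),
        tak_succ_of_le n (x := y) (by linarith) (by linarith)]
      have h := ih (2 * x) (2 * y) (by linarith) (by linarith)
      rw [show 2 * ((x + y) / 2) = (2 * x + 2 * y) / 2 by ring]
      linarith
    have refl1 : ∀ x y : ℝ,
        (tak (n + 1) (((1 - y) + (1 - x)) / 2) ≤
          (tak (n + 1) (1 - y) + tak (n + 1) (1 - x)) / 2 + ((1 - x) - (1 - y)) / 2) →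
        tak (n + 1) ((x + y) / 2) ≤ (tak (n + 1) x + tak (n + 1) y) / 2 + (y - x) / 2 := by
      intro x y h
      rw [tak_one_sub, tak_one_sub] at h
      rw [show ((1 - y) + (1 - x)) / 2 = 1 - (x + y) / 2 by ring, tak_one_sub] at h
      linarith
    -- all of the unit interval
    have case5 : ∀ x y : ℝ, 0 ≤ x → x ≤ y → y ≤ 1 →
        tak (n + 1) ((x + y) / 2) ≤ (tak (n + 1) x + tak (n + 1) y) / 2 + (y - x) / 2 := by
      intro x y hx hxy hy
      rcases le_or_gt y (1 / 2) with hy2 | hy2
      · exact case1 x y hx hxy hy2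
      rcases le_or_gt (1 / 2) x with hx2 | hx2
      · apply refl1
        exact case1 (1 - y) (1 - x) (by linarith) (by linarith) (by linarith)
      rcases le_total (y - 1 / 2) (1 / 2 - x) with hc | hc
      · have h := tak_case3 n (a := 1 / 2 - x) (b := y - 1 / 2) (by linarith) hc (by linarith)
        rw [show 1 / 2 - (1 / 2 - x - (y - 1 / 2)) / 2 = (x + y) / 2 by ring,
          show 1 / 2 - (1 / 2 - x) = x by ring, show 1 / 2 + (y - 1 / 2) = y by ring] at h
        linarith
      · apply refl1
        have h := tak_case3 n (a := y - 1 / 2) (b := 1 / 2 - x) (by linarith) hc (by linarith)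
        rw [show 1 / 2 - (y - 1 / 2 - (1 / 2 - x)) / 2 = ((1 - y) + (1 - x)) / 2 by ring,
          show 1 / 2 - (y - 1 / 2) = 1 - y by ring,
          show 1 / 2 + (1 / 2 - x) = 1 - x by ring] at h
        linarith
    have shift : ∀ (z : ℤ) (x y : ℝ),
        (tak (n + 1) (((x - z) + (y - z)) / 2) ≤
          (tak (n + 1) (x - z) + tak (n + 1) (y - z)) / 2 + ((y - z) - (x - z)) / 2) →
        tak (n + 1) ((x + y) / 2) ≤ (tak (n + 1) x + tak (n + 1) y) / 2 + (y - x) / 2 := by
      intro z x y h
      have e : ∀ w : ℝ, tak (n + 1) (w - z) = tak (n + 1) w := by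
        intro w
        have := tak_add_int (n + 1) (w - z) z
        rw [sub_add_cancel] at this
        exact this.symm
      rw [e, e, show ((x - z) + (y - z)) / 2 = (x + y) / 2 - z by ring, e] at h
      linarith
    intro x y hxy hyx
    apply shift ⌊x⌋ x y
    have f0 : 0 ≤ x - ⌊x⌋ := by
      have := Int.floor_le x; linarith
    have f1 : x - ⌊x⌋ < 1 := by
      have := Int.lt_floor_add_one x; linarith
    set x' := x - ⌊x⌋ with hx'
    set y' := y - ⌊x⌋ with hy'
    have hxy' : x' ≤ y' := by linarith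
    have hyx' : y' - x' ≤ 1 := by linarith
    rcases le_or_gt y' 1 with hy1 | hy1
    · exact case5 x' y' f0 hxy' hy1
    rcases le_total (y' - 1) (1 - x') with hc | hc
    · apply shift 1 x' y'
      have h := tak_case4 n (a := 1 - x') (b := y' - 1) (by linarith) hc (by linarith)
      push_cast
      rw [show (y' - 1 - (1 - x')) / 2 = ((x' - 1) + (y' - 1)) / 2 by ring,
        show -(1 - x') = x' - 1 by ring] at h
      linarith
    · apply shift 1 x' y'
      have h := tak_case4 n (a := y' - 1) (b := 1 - x') (by linarith) hc (by linarith)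
      push_cast
      have e1 : tak (n + 1) ((1 - x' - (y' - 1)) / 2) =
          tak (n + 1) (((x' - 1) + (y' - 1)) / 2) := by
        rw [← tak_neg]
        congr 1
        ring
      have e2 : tak (n + 1) (-(y' - 1)) = tak (n + 1) (y' - 1) := tak_neg _ _
      have e3 : tak (n + 1) (1 - x') = tak (n + 1) (x' - 1) := by
        rw [← tak_neg]
        congr 1
        ring
      rw [e1, e2, e3] at h
      linarith

/-- Approximate midpoint convexity with the distance to the nearest integer. -/
theorem tak_mid (n : ℕ) (x y : ℝ) :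
    tak n ((x + y) / 2) ≤ (tak n x + tak n y) / 2 + s ((x - y) / 2) := by
  set k := round ((x - y) / 2) with hk
  have e1 : tak n (x - k) = tak n x := by
    have := tak_add_int n (x - k) k
    rw [sub_add_cancel] at this
    exact this.symm
  have e2 : tak n (y + k) = tak n y := tak_add_int n y k
  have e3 : (x + y) / 2 = ((x - k) + (y + k)) / 2 := by ring
  have hs : s ((x - y) / 2) = |(x - k) - (y + k)| / 2 := by
    unfold s
    rw [← hk]
    rw [show (x - k) - (y + k) = 2 * ((x - y) / 2 - k) by ring, abs_mul, abs_two]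
    ring
  have hle : |(x - k) - (y + k)| ≤ 1 := by
    have := s_le_half ((x - y) / 2)
    rw [hs] at this
    linarith
  rw [hs, e3, ← e1, ← e2]
  rcases le_total (x - k) (y + k) with h | h
  · rw [abs_of_nonpos (by linarith)] at hle ⊢
    have := tak_mid_aux n (x - k) (y + k) h (by linarith)
    linarith
  · rw [abs_of_nonneg (by linarith)] at hle ⊢
    have := tak_mid_aux n (y + k) (x - k) h (by linarith)
    rw [add_comm (y + (k : ℝ)) (x - k)] at this
    linarith

/-- Numerical lower bound near the maximum. -/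
lemma tak_lower {c x : ℝ} (hc : c = 121 / 500) (h0 : 0 < x) (h1 : x ≤ 2 / 5) :
    x ^ 2 < c * tak 7 x := by
  subst hc
  have hsmall : ∀ y : ℝ, 0 ≤ y → y ≤ 1 / 8 → 3 * y ≤ tak 3 y := by
    intro y h0 h1
    rw [tak_succ_of_le 2 h0 (by linarith), tak_succ_of_le 1 (by linarith) (by linarith),
      tak_succ_of_le 0 (by linarith) (by linarith)]
    simp only [tak_zero]
    linarith
  have hmid : ∀ y : ℝ, 1 / 8 ≤ y → y ≤ 3 / 8 → y + 1 / 4 ≤ tak 3 y := by
    intro y h0 h1
    rcases le_or_gt y (1 / 4) with h2 | h2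
    · rw [tak_succ_of_le 2 (by linarith) (by linarith),
        tak_succ_of_le 1 (by linarith) (by linarith), ← tak_one_sub,
        tak_succ_of_le 0 (by linarith) (by linarith)]
      simp only [tak_zero]
      linarith
    · rw [tak_succ_of_le 2 (by linarith) (by linarith), ← tak_one_sub,
        tak_succ_of_le 1 (by linarith) (by linarith), ← tak_one_sub]
      rw [show 1 - 2 * (1 - 2 * y) = 4 * y - 1 by ring]
      rw [tak_succ_of_le 0 (by linarith) (by linarith)]
      simp only [tak_zero]
      linarith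
  have hmon : ∀ n : ℕ, 3 ≤ n → ∀ y : ℝ, tak 3 y ≤ tak n y := by
    intro n hn y
    induction n, hn using Nat.le_induction with
    | base => exact le_rfl
    | succ n _ ih => exact ih.trans (tak_le_succ n y)
  rcases le_or_gt x (1 / 8) with h2 | h2
  · have := hsmall x h0.le h2
    have := hmon 7 (by norm_num) x
    nlinarith
  rcases le_or_gt x (3 / 8) with h3 | h3
  · have := hmid x h2.le h3
    have := hmon 7 (by norm_num) x
    nlinarith
  · -- three eighths to two fifths
    have hw0 : 0 ≤ 16 * x - 6 := by linarith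
    have hw1 : 16 * x - 6 ≤ 2 / 5 := by linarith
    have hw : 3 / 2 * (16 * x - 6) ≤ tak 3 (16 * x - 6) := by
      set w := 16 * x - 6
      rcases le_or_gt w (1 / 8) with h4 | h4
      · have := hsmall w hw0 h4
        linarith
      rcases le_or_gt w (3 / 8) with h5 | h5
      · have := hmid w h4.le h5
        linarith
      · rw [tak_succ_of_le 2 (by linarith) (by linarith), ← tak_one_sub,
          tak_succ_of_le 1 (by linarith) (by linarith)]
        rw [tak_succ_of_le 0 (by linarith) (by linarith)]
        simp only [tak_zero]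
        linarith
    have e7 : tak 7 x = 5 / 8 + tak 3 (16 * x - 6) / 16 := by
      rw [tak_succ_of_le 6 (by linarith) (by linarith), ← tak_one_sub 6,
        tak_succ_of_le 5 (by linarith) (by linarith), ← tak_one_sub 5]
      rw [show 1 - 2 * (1 - 2 * x) = 4 * x - 1 by ring, ← tak_one_sub 5]
      rw [show 1 - (4 * x - 1) = 2 - 4 * x by ring]
      rw [tak_succ_of_le 4 (by linarith) (by linarith), ← tak_one_sub 4,
        tak_succ_of_le 3 (by linarith) (by linarith), ← tak_one_sub 3]
      rw [show 1 - 2 * (1 - 2 * (2 - 4 * x)) = 1 - (16 * x - 6) by ring, tak_one_sub 3]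
      ring
    nlinarith

end Pool.Agent.H25
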