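import Pool.Agent.H25.Tak

/-!
Elementary trigonometric and numerical inequalities.
-/

set_option autoImplicit false

namespace Pool.Agent.H25

open Real

lemma cos_le_exp_aux {y : ℝ} (h0 : 0 ≤ y) (h1 : y ≤ π / 2) :
    cos y ≤ exp (-(y ^ 2 / 2)) := by
  have hanti : AntitoneOn (fun z : ℝ => cos z * exp (z ^ 2 / 2)) (Set.Icc 0 (π / 2)) := by
    apply antitoneOn_of_deriv_nonpos (convex_Icc _ _)
    · fun_prop
    · fun_prop
    · intro z hz
      rw [interior_Icc, Set.mem_Ioo] at hz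
      have hd : HasDerivAt (fun z : ℝ => cos z * exp (z ^ 2 / 2))
          (-sin z * exp (z ^ 2 / 2) + cos z * (exp (z ^ 2 / 2) * z)) z := by
        have e1 : HasDerivAt (fun z : ℝ => z ^ 2 / 2) z z := by
          have := (hasDerivAt_pow 2 z).div_const 2
          refine this.congr_deriv ?_
          norm_num
        exact (hasDerivAt_cos z).mul e1.exp
      rw [hd.deriv]
      have ht := lt_tan hz.1 hz.2
      rw [tan_eq_sin_div_cos] at ht
      have hc : 0 < cos z := cos_pos_of_mem_Ioo ⟨by linarith [pi_pos], hz.2⟩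
      rw [lt_div_iff₀ hc] at ht
      have he := exp_pos (z ^ 2 / 2)
      nlinarith
  have h := hanti (Set.left_mem_Icc.mpr (by positivity)) (Set.mem_Icc.mpr ⟨h0, h1⟩) h0
  simp only [cos_zero, ne_eq, OfNat.ofNat_ne_zero, not_false_eq_true, zero_pow, zero_div,
    exp_zero, mul_one] at h
  rw [exp_neg, ← one_div, le_div_iff₀ (exp_pos _)]
  exact h

lemma cos_le_exp {y : ℝ} (h : |y| ≤ π / 2) : cos y ≤ exp (-(y ^ 2 / 2)) := by
  have := cos_le_exp_aux (abs_nonneg y) h
  rwa [cos_abs, sq_abs] at this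

lemma cos_two_pi_s (x : ℝ) : cos (2 * π * s x) = cos (2 * π * x) := by
  unfold s
  rw [← cos_abs, abs_mul, abs_abs, ← abs_mul, cos_abs]
  have : 2 * π * (x - round x) = 2 * π * x + ((-round x : ℤ) : ℝ) * (2 * π) := by
    push_cast
    ring
  rw [this, cos_add_int_mul_two_pi]

lemma s_sq_ge_one (x : ℝ) : (1 - cos (2 * π * x)) / (2 * π ^ 2) ≤ s x ^ 2 := by
  rw [← cos_two_pi_s, div_le_iff₀ (by positivity)]
  have := one_sub_sq_div_two_le_cos (x := 2 * π * s x)
  nlinarith

lemma sin_ge_parabola {p : ℝ} (h0 : -(π / 2) ≤ p) (h1 : p ≤ π / 2) :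
    p - p ^ 2 / π ≤ sin p := by
  have hpi := pi_pos
  rcases lt_trichotomy p 0 with hp | hp | hp
  · have h := sin_le (x := -p) (by linarith)
    rw [sin_neg] at h
    have : 0 ≤ p ^ 2 / π := by positivity
    linarith
  · subst hp
    simp
  · have h := sin_gt_sub_cube hp
    have h2 : p ^ 3 / 6 ≤ p ^ 2 / π := by
      rw [div_le_div_iff₀ (by norm_num) hpi]
      have h3 : p * π ≤ 6 := by
        have : π ≤ 3.15 := pi_lt_d2.le
        nlinarith
      have : 0 ≤ p ^ 2 := by positivity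
      nlinarith
    linarith

lemma s_sq_ge_two (x : ℝ) : 1 / 16 - cos (2 * π * x) / (4 * π) ≤ s x ^ 2 := by
  rw [← cos_two_pi_s]
  have hpi := pi_pos
  set d := s x with hd
  have hd0 : 0 ≤ d := s_nonneg x
  have hd1 : d ≤ 1 / 2 := s_le_half x
  have h := sin_ge_parabola (p := π / 2 - 2 * π * d) (by nlinarith) (by nlinarith)
  rw [sin_pi_div_two_sub] at h
  set C := cos (2 * π * d) with hC
  have e1 : (π / 2 - 2 * π * d) ^ 2 / π = π * (1 / 2 - 2 * d) ^ 2 := by
    field_simp
  rw [e1] at h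
  have e2 : d ^ 2 - (1 / 16 - C / (4 * π)) =
      (C - ((π / 2 - 2 * π * d) - π * (1 / 2 - 2 * d) ^ 2)) / (4 * π) := by
    field_simp
    ring
  have : 0 ≤ d ^ 2 - (1 / 16 - C / (4 * π)) := by
    rw [e2]
    apply div_nonneg _ (by positivity)
    linarith
  linarith

lemma exp_neg_le_quad {x : ℝ} (hx : 0 ≤ x) : exp (-x) ≤ 1 - x + x ^ 2 / 2 := by
  have h := quadratic_le_exp_of_nonneg hx
  have h1 : 0 < 1 + x + x ^ 2 / 2 := by positivity
  rw [exp_neg]
  have h2 : (exp x)⁻¹ ≤ (1 + x + x ^ 2 / 2)⁻¹ := inv_anti₀ h1 h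
  refine h2.trans ?_
  rw [inv_le_iff_one_le_mul₀ h1]
  nlinarith [sq_nonneg (x ^ 2)]

lemma exp_num1 : exp (-(2693 / 2000 : ℝ)) ≤ 0.28 := by
  have h := sum_le_exp_of_nonneg (x := 2693 / 2000) (by norm_num) 5
  simp only [Finset.sum_range_succ, Finset.sum_range_zero, Nat.factorial] at h
  norm_num at h
  rw [exp_neg, inv_le_comm₀ (exp_pos _) (by norm_num)]
  refine le_trans ?_ h
  norm_num

lemma exp_num2 : exp (-(187 / 50 : ℝ)) ≤ 0.025 := by
  have h := sum_le_exp_of_nonneg (x := 187 / 200) (by norm_num) 5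
  simp only [Finset.sum_range_succ, Finset.sum_range_zero, Nat.factorial] at h
  norm_num at h
  have h2 : exp (187 / 50 : ℝ) = exp (187 / 200) ^ 4 := by
    rw [← exp_nat_mul]
    norm_num
  rw [exp_neg, inv_le_comm₀ (exp_pos _) (by norm_num), h2]
  refine le_trans ?_ (pow_le_pow_left₀ (by norm_num) h 4)
  norm_num

/-- The numerical heart of the level one inequality. -/
lemma numeric {V r t P : ℝ} (ht0 : 0 ≤ t) (ht : t ≤ 1 / 4)
    (hP : P ≤ exp (-(2 * π ^ 2 * r)))
    (h1 : (1 - P) / (2 * π ^ 2) ≤ V) (h2 : 1 / 16 - P / (4 * π) ≤ V) (h3 : t - r ≤ V) :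
    121 / 500 * t ≤ V := by
  by_contra hcon
  push Not at hcon
  have hpi := pi_pos
  have hpi1 := pi_gt_d4
  have hpi2 := pi_lt_d4
  have hsq1 : 9.869 < π ^ 2 := by nlinarith
  have hsq2 : π ^ 2 < 9.8697 := by nlinarith
  have hr : 379 / 500 * t < r := by linarith
  have hP2 : P ≤ exp (-(2 * π ^ 2 * (379 / 500 * t))) := by
    refine hP.trans (exp_le_exp.mpr ?_)
    have : 0 < 2 * π ^ 2 := by positivity
    nlinarith
  rcases le_or_gt t 0.09 with h | h
  · have hx : 0 ≤ 2 * π ^ 2 * (379 / 500 * t) := by positivity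
    have h4 := exp_neg_le_quad hx
    have h5 : 1 - P ≤ V * (2 * π ^ 2) := (div_le_iff₀ (by positivity)).mp h1
    have h6 : V * (2 * π ^ 2) < 121 / 500 * t * (2 * π ^ 2) :=
      mul_lt_mul_of_pos_right hcon (by positivity)
    -- combine
    have h7 : 2 * π ^ 2 * (379 / 500 * t) - (2 * π ^ 2 * (379 / 500 * t)) ^ 2 / 2 <
        121 / 500 * t * (2 * π ^ 2) := by linarith
    have h8 : 121 / 500 * t * (2 * π ^ 2) ≤
        2 * π ^ 2 * (379 / 500 * t) - (2 * π ^ 2 * (379 / 500 * t)) ^ 2 / 2 := by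
      have h9 : 121 / 500 ≤ 379 / 500 - π ^ 2 * (379 / 500) ^ 2 * t := by nlinarith
      have h10 : 0 ≤ 2 * π ^ 2 * t := by positivity
      nlinarith [mul_le_mul_of_nonneg_left h9 h10]
    linarith
  · -- convexity of the exponential
    have hPP : P ≤ exp (-(9.869 * (379 / 250) * t)) := by
      refine hP2.trans (exp_le_exp.mpr ?_)
      nlinarith
    set l : ℝ := (1 / 4 - t) / 0.16 with hl
    have hl0 : 0 ≤ l := by rw [hl]; apply div_nonneg <;> linarith
    have hl1 : 0 ≤ 1 - l := by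
      rw [hl, sub_nonneg, div_le_one (by norm_num)]
      linarith
    have hconv := convexOn_exp.2 (Set.mem_univ (-(2693 / 2000 : ℝ))) (Set.mem_univ (-(187 / 50 : ℝ)))
      hl0 hl1 (by ring)
    simp only [smul_eq_mul] at hconv
    have hle : exp (-(9.869 * (379 / 250) * t)) ≤ exp (l * -(2693 / 2000) + (1 - l) * -(187 / 50)) := by
      apply exp_le_exp.mpr
      have htl : t = 1 / 4 - 0.16 * l := by rw [hl]; ring
      rw [htl]
      nlinarith
    have hfin : P ≤ l * 0.28 + (1 - l) * 0.025 := by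
      refine hPP.trans (hle.trans (hconv.trans ?_))
      have e1 := mul_le_mul_of_nonneg_left exp_num1 hl0
      have e2 := mul_le_mul_of_nonneg_left exp_num2 hl1
      linarith
    have htl : t = 1 / 4 - 0.16 * l := by rw [hl]; ring
    have h5 : 1 / 16 - V ≤ P / (4 * π) := by linarith
    have h6 : P / (4 * π) ≤ (l * 0.28 + (1 - l) * 0.025) / (4 * π) :=
      div_le_div_of_nonneg_right hfin (by positivity)
    have h7 : (l * 0.28 + (1 - l) * 0.025) / (4 * π) ≤
        (l * 0.28 + (1 - l) * 0.025) / (4 * 3.1415) := by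
      apply div_le_div_of_nonneg_left _ (by norm_num) (by linarith)
      have : 0 ≤ l * 0.28 := by positivity
      have : 0 ≤ (1 - l) * 0.025 := by positivity
      linarith
    have hl2 : l ≤ 1 := by linarith
    have h8 : (l * 0.28 + (1 - l) * 0.025) / (4 * 3.1415) ≤ 1 / 16 - 121 / 500 * t := by
      rw [htl, div_le_iff₀ (by norm_num)]
      nlinarith
    linarith

end Pool.Agent.H25
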